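import Pool.Agent.H96R3.BC.Stmts

/-!
# Task SEC of the project BIGCOEF (helper96): the second moment of the base coefficients is large.
-/

set_option autoImplicit false

open Finset Filter

namespace Pool.Agent.H135R3.BCSec

open Pool.Agent.H96R3.BC

theorem tower_ge {X : ℕ → ℕ} (h : ∀ i, Real.exp (Real.exp ((X i : ℝ) ^ 2)) ≤ X (i + 1)) :
    ∀ i : ℕ, (i : ℝ) ≤ X i := by
  intro i
  induction i with
  | zero => simp
  | succ i ih =>
    have h1 := Real.add_one_le_exp (Real.exp ((X i : ℝ) ^ 2))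
    have h2 := Real.add_one_le_exp ((X i : ℝ) ^ 2)
    have h3 := h i
    push_cast
    nlinarith [sq_nonneg ((X i : ℝ) - 1)]

theorem ev_log (C K : ℝ) (hC : 0 < C) :
    ∀ᶠ x : ℝ in atTop, K * (1 + Real.log (Real.log (2 * x))) < Real.log x / (2 * C) := by
  have h1 : ∀ᶠ L : ℝ in atTop, |K| * (1 + (Real.log 2 + Real.log L)) < L / (2 * C) := by
    have h2 := Real.isLittleO_log_id_atTop
    have hc : 0 < 1 / (4 * C * (|K| + 1)) := by positivity
    have h3 := h2.bound hc
    filter_upwards [h3, eventually_gt_atTop (1:ℝ),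
      eventually_gt_atTop (4 * C * (|K| * (1 + Real.log 2)))] with L hL h1L hL2
    simp only [id, Real.norm_eq_abs] at hL
    have hlog : 0 < Real.log L := Real.log_pos h1L
    have h0L : 0 < L := by linarith
    rw [abs_of_pos hlog, abs_of_pos h0L] at hL
    have h5 : |K| * Real.log L ≤ L / (4 * C) := by
      have h6 : |K| * Real.log L ≤ (|K| + 1) * (1 / (4 * C * (|K| + 1)) * L) :=
        mul_le_mul (by linarith) hL hlog.le (by positivity)
      have h7 : (|K| + 1) * (1 / (4 * C * (|K| + 1)) * L) = L / (4 * C) := by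
        have : |K| + 1 ≠ 0 := by positivity
        field_simp
      linarith
    have h8 : |K| * (1 + Real.log 2) < L / (4 * C) := by
      rw [lt_div_iff₀ (by positivity)]
      linarith
    have h9 : L / (2 * C) = L / (4 * C) + L / (4 * C) := by
      field_simp
      norm_num
    rw [h9]
    linarith
  have h4 := Real.tendsto_log_atTop.eventually h1
  filter_upwards [h4, eventually_ge_atTop (3:ℝ)] with x hx hx3
  have hl1 : 1 < Real.log x := by
    rw [Real.lt_log_iff_exp_lt (by linarith)]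
    have := Real.exp_one_lt_d9
    linarith
  have hl2 : Real.log (2 * x) ≤ 2 * Real.log x := by
    rw [Real.log_mul (by norm_num) (by linarith)]
    have : Real.log 2 ≤ Real.log x := Real.log_le_log (by norm_num) (by linarith)
    linarith
  have hl3 : 1 < Real.log (2 * x) := by
    have : Real.log x ≤ Real.log (2 * x) := Real.log_le_log (by linarith) (by linarith)
    linarith
  have hl4 : Real.log (Real.log (2 * x)) ≤ Real.log 2 + Real.log (Real.log x) := by
    rw [← Real.log_mul (by norm_num) (by linarith)]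
    exact Real.log_le_log (by linarith) hl2
  have hl5 : 0 < Real.log (Real.log (2 * x)) := Real.log_pos hl3
  calc K * (1 + Real.log (Real.log (2 * x))) ≤ |K| * (1 + Real.log (Real.log (2 * x))) :=
        mul_le_mul_of_nonneg_right (le_abs_self K) (by linarith)
    _ ≤ |K| * (1 + (Real.log 2 + Real.log (Real.log x))) :=
        mul_le_mul_of_nonneg_left (by linarith) (abs_nonneg K)
    _ < _ := hx

theorem taskSec : TaskSec := by
  intro C₁ X P0 a0 hC hB y hy K
  obtain ⟨R, hR⟩ := (eventually_atTop.1 (ev_log C₁ K hC))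
  set i : ℕ := ⌈max R 3⌉₊ with hi
  have hiR : max R 3 ≤ (i : ℝ) := Nat.le_ceil _
  have hXi : (i : ℝ) ≤ X i := tower_ge hB.tower i
  have hXR : R ≤ X i := (le_max_left _ _).trans (hiR.trans hXi)
  have hX3 : (3:ℝ) ≤ X i := (le_max_right _ _).trans (hiR.trans hXi)
  refine ⟨2 * X i, ?_, ?_⟩
  · have : 3 ≤ X i := by exact_mod_cast hX3
    omega
  have hmain := hR (X i) hXR
  push_cast
  refine hmain.trans_le ?_
  have hlog1 : 1 < Real.log (X i) := by
    rw [Real.lt_log_iff_exp_lt (by linarith)]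
    have := Real.exp_one_lt_d9
    linarith
  have hA : 0 < AA (X i) := Real.exp_pos _
  have hDD : DD (X i) = (AA (X i)) ^ 2 / (Real.log (X i)) ^ 2 := by
    unfold DD AA
    rw [← Real.exp_nat_mul]
    norm_num
  have hsub : P0 i ⊆ (Iic (2 * X i)).filter Nat.Prime := by
    intro p hp
    obtain ⟨h1, h2, h3⟩ := hB.mem i p hp
    exact mem_filter.2 ⟨mem_Iic.2 h3, h1⟩
  have h1 : ∑ p ∈ P0 i, (y p) ^ 2 / (p : ℝ) ≤ ∑ p ∈ (Iic (2 * X i)).filter Nat.Prime, (y p) ^ 2 / (p : ℝ) :=
    sum_le_sum_of_subset_of_nonneg hsub fun p _ _ => by positivity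
  refine le_trans ?_ h1
  have h2 : ∑ p ∈ P0 i, (AA (X i)) ^ 2 / (2 * X i : ℝ) ≤ ∑ p ∈ P0 i, (y p) ^ 2 / (p : ℝ) := by
    refine sum_le_sum fun p hp => ?_
    obtain ⟨h3, h4, h5⟩ := hB.mem i p hp
    have h6 : a0 p = AA (X i) := hB.val i p hp
    have h7 : y p = AA (X i) := by
      rw [hy p (by rw [h6]; exact hA.ne'), h6]
    rw [h7]
    have h8 : (0:ℝ) < p := by exact_mod_cast h3.pos
    have h9 : (p : ℝ) ≤ 2 * X i := by exact_mod_cast h5
    gcongr
  refine le_trans ?_ h2
  rw [sum_const, nsmul_eq_mul]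
  have h3 := hB.many i
  rw [hDD] at h3
  have hL : 0 < Real.log (X i) := by linarith
  have hX0 : (0:ℝ) < X i := by linarith
  have h4 : (X i : ℝ) * Real.log (X i) ≤ C₁ * (P0 i).card * (AA (X i)) ^ 2 := by
    have h5 : C₁ * (P0 i).card * ((AA (X i)) ^ 2 / (Real.log (X i)) ^ 2) * Real.log (X i) =
        C₁ * (P0 i).card * (AA (X i)) ^ 2 / Real.log (X i) := by
      field_simp
    rw [h5, le_div_iff₀ hL] at h3
    exact h3
  rw [div_le_iff₀ (by positivity)]
  have h6 : ((P0 i).card : ℝ) * ((AA (X i)) ^ 2 / (2 * X i)) * (2 * C₁) =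
      (C₁ * (P0 i).card * (AA (X i)) ^ 2) / X i := by
    field_simp
  rw [h6, le_div_iff₀ hX0]
  linarith

end Pool.Agent.H135R3.BCSec
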