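import Mathlib

/-!
# A small checker for unique completability of partial latin squares of the cyclic square
-/

set_option autoImplicit false

namespace Pool.Agent.H135R3.CritCheck

/-- no filled cell of `asg` conflicts with symbol `s` in cell `(r, c)` -/
def ok (asg : List (ℕ × ℕ × ℕ)) (r c s : ℕ) : Bool :=
  asg.all fun t => !((t.1 == r && t.2.1 != c && t.2.2 == s) ||
    (t.2.1 == c && t.1 != r && t.2.2 == s))

/-- exhaustive search over the cells of the list, in order -/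
def search (n : ℕ) : List (ℕ × ℕ) → List (ℕ × ℕ × ℕ) → Bool
  | [], asg => asg.all fun t => t.2.2 == (t.1 + t.2.1) % n
  | rc :: rest, asg => (List.range n).all fun s =>
      !(ok asg rc.1 rc.2 s) || search n rest ((rc.1, rc.2, s) :: asg)

/-- the triple `t` is in the square `M` -/
def Holds {n : ℕ} (M : Fin n → Fin n → Fin n) (t : ℕ × ℕ × ℕ) : Prop :=
  ∃ (hr : t.1 < n) (hc : t.2.1 < n), (M ⟨t.1, hr⟩ ⟨t.2.1, hc⟩).val = t.2.2

theorem ok_of {n : ℕ} (M : Fin n → Fin n → Fin n) (hR : ∀ i, Function.Injective (M i))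
    (hC : ∀ j, Function.Injective (fun i => M i j)) (asg : List (ℕ × ℕ × ℕ))
    (h : ∀ t ∈ asg, Holds M t) (r c : ℕ) (hr : r < n) (hc : c < n) :
    ok asg r c (M ⟨r, hr⟩ ⟨c, hc⟩).val = true := by
  unfold ok
  rw [List.all_eq_true]
  rintro ⟨a, b, s⟩ ht
  obtain ⟨ha, hb, hs⟩ := h _ ht
  simp only at ha hb hs ⊢
  rw [Bool.not_eq_true', Bool.or_eq_false_iff]
  constructor
  · by_contra hcon
    simp only [Bool.not_eq_false, Bool.and_eq_true, beq_iff_eq, bne_iff_ne, ne_eq] at hcon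
    obtain ⟨⟨rfl, h2⟩, h3⟩ := hcon
    apply h2
    have := hR ⟨a, ha⟩ (Fin.ext (hs.trans h3))
    simpa using this
  · by_contra hcon
    simp only [Bool.not_eq_false, Bool.and_eq_true, beq_iff_eq, bne_iff_ne, ne_eq] at hcon
    obtain ⟨⟨rfl, h2⟩, h3⟩ := hcon
    apply h2
    have := hC ⟨b, hb⟩ (Fin.ext (hs.trans h3) : M ⟨a, ha⟩ ⟨b, hb⟩ = M ⟨r, hr⟩ ⟨b, hb⟩)
    simpa using this

theorem search_sound {n : ℕ} (M : Fin n → Fin n → Fin n) (hR : ∀ i, Function.Injective (M i))
    (hC : ∀ j, Function.Injective (fun i => M i j)) :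
    ∀ (order : List (ℕ × ℕ)) (asg : List (ℕ × ℕ × ℕ)), (∀ t ∈ asg, Holds M t) →
      (∀ rc ∈ order, rc.1 < n ∧ rc.2 < n) → search n order asg = true →
      (∀ t ∈ asg, t.2.2 = (t.1 + t.2.1) % n) ∧
      ∀ rc ∈ order, Holds M (rc.1, rc.2, (rc.1 + rc.2) % n) := by
  intro order
  induction order with
  | nil =>
    intro asg _ _ h
    refine ⟨fun t ht => ?_, by simp⟩
    have := (List.all_eq_true.1 h) t ht
    simpa using this
  | cons rc rest ih =>
    intro asg hasg hord h
    obtain ⟨hr, hc⟩ := hord rc (by simp)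
    have h1 := (List.all_eq_true.1 h) (M ⟨rc.1, hr⟩ ⟨rc.2, hc⟩).val
      (List.mem_range.2 (M ⟨rc.1, hr⟩ ⟨rc.2, hc⟩).isLt)
    rw [ok_of M hR hC asg hasg rc.1 rc.2 hr hc] at h1
    simp only [Bool.not_true, Bool.false_or] at h1
    have hH : Holds M (rc.1, rc.2, (M ⟨rc.1, hr⟩ ⟨rc.2, hc⟩).val) := ⟨hr, hc, rfl⟩
    obtain ⟨i1, i2⟩ := ih ((rc.1, rc.2, (M ⟨rc.1, hr⟩ ⟨rc.2, hc⟩).val) :: asg)
      (by
        intro t ht
        rcases List.mem_cons.1 ht with rfl | ht
        · exact hH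
        · exact hasg t ht)
      (fun rc' h' => hord rc' (by simp [h'])) h1
    refine ⟨fun t ht => i1 t (by simp [ht]), fun rc' h' => ?_⟩
    rcases List.mem_cons.1 h' with rfl | h'
    · have := i1 _ (List.mem_cons_self)
      simp only at this
      rw [← this]
      exact hH
    · exact i2 rc' h'

/-- the square given by a table of rows -/
def tab (n : ℕ) (hn : 0 < n) (T : List (List ℕ)) : Fin n → Fin n → Fin n := fun i j =>
  ⟨((T.getD i.val []).getD j.val 0) % n, Nat.mod_lt _ hn⟩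

/-- the cyclic square is the only latin square agreeing with it on the cells of `S` -/
theorem unique_of {n : ℕ} [NeZero n] (S : Finset (Fin n × Fin n)) (cells order : List (ℕ × ℕ))
    (hcells : ∀ rc ∈ cells, ∃ c ∈ S, rc = (c.1.val, c.2.val))
    (hord : ∀ rc ∈ order, rc.1 < n ∧ rc.2 < n)
    (hall : ∀ i j : Fin n, (i, j) ∈ S ∨ (i.val, j.val) ∈ order)
    (hs : search n order (cells.map fun rc => (rc.1, rc.2, (rc.1 + rc.2) % n)) = true) :
    ∀ M : Fin n → Fin n → Fin n,
      (∀ i, Function.Injective (M i)) →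
      (∀ j, Function.Injective (fun i => M i j)) →
      (∀ c ∈ S, M c.1 c.2 = c.1 + c.2) →
      M = fun i j => i + j := by
  intro M hR hC hM
  obtain ⟨-, h2⟩ := search_sound M hR hC order _ (by
    intro t ht
    obtain ⟨rc, hrc, rfl⟩ := List.mem_map.1 ht
    obtain ⟨c, hc, rfl⟩ := hcells rc hrc
    refine ⟨c.1.isLt, c.2.isLt, ?_⟩
    have := congrArg Fin.val (hM c hc)
    simpa [Fin.val_add] using this) hord hs
  funext i j
  rcases hall i j with h | h
  · exact hM (i, j) h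
  · obtain ⟨_, _, h3⟩ := h2 _ h
    apply Fin.ext
    simpa [Fin.val_add] using h3

end Pool.Agent.H135R3.CritCheck
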