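import Mathlib
import Pool.Agent.H755R5.Kum.Stmts

/-!
Project KUM, task A (for helper755): the prime ideals of a number field satisfy
`∑_{P ∈ F} N(P)^(-s) ≤ log (1 / (s - 1)) + C` for every finite set `F` of maximal ideals and `1 < s < 2`.
-/

set_option autoImplicit false

namespace Pool.Agent.H135R3.KumA

open NumberField Filter Topology

section

variable (E : Type) [Field E] [NumberField E]

/-- number of ideals of norm `n` -/
noncomputable def cf (n : ℕ) : ℝ := (Nat.card {I : Ideal (𝓞 E) // Ideal.absNorm I = n} : ℝ)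

lemma cf_nonneg (n : ℕ) : 0 ≤ cf E n := Nat.cast_nonneg _

lemma tendsto_avg :
    Tendsto (fun n : ℕ => (∑ k ∈ Finset.Icc 1 n, cf E k) / (n : ℝ)) atTop
      (𝓝 (dedekindZeta_residue E)) := by
  refine ((Ideal.tendsto_norm_le_div_atTop₀ E).comp tendsto_natCast_atTop_atTop).congr fun n ↦ ?_
  simp only [Function.comp_apply, Nat.cast_le, cf, ← Nat.cast_sum]
  congr
  rw [← add_left_inj 1, ← Ideal.card_norm_le_eq_card_norm_le_add_one,
    show Finset.Icc 1 n = Finset.Ioc 0 n from Finset.Icc_succ_left_eq_Ioc _ _,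
    show 1 = Nat.card {I : Ideal (𝓞 E) // Ideal.absNorm I = 0} by simp [Ideal.absNorm_eq_zero_iff],
    Finset.sum_Ioc_add_eq_sum_Icc (n.zero_le),
    ← Finset.card_preimage_eq_sum_card_image_eq (fun k _ ↦ Ideal.finite_setOfPred_absNorm_eq k)]
  simp [Set.coe_eq_subtype]

lemma lsummable {s : ℝ} (hs : 1 < s) :
    LSeriesSummable (fun n => ((cf E n : ℝ) : ℂ)) (s : ℂ) := by
  refine LSeriesSummable_of_sum_norm_bigO_and_nonneg (r := 1) ?_ (cf_nonneg E) zero_le_one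
    (by simpa using hs)
  have h : Tendsto (fun n : ℕ => (∑ k ∈ Finset.Icc 1 n, cf E k) / ((n : ℝ) ^ (1 : ℝ) : ℝ)) atTop
      (𝓝 (dedekindZeta_residue E)) := by
    simpa using tendsto_avg E
  exact Asymptotics.isBigO_atTop_natCast_rpow_of_tendsto_div_rpow h

/-- the general term of the Dedekind zeta function at a real point -/
noncomputable def tm (s : ℝ) (n : ℕ) : ℝ := if n = 0 then 0 else cf E n / (n : ℝ) ^ s

lemma tm_nonneg (s : ℝ) (n : ℕ) : 0 ≤ tm E s n := by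
  unfold tm
  split_ifs
  · exact le_rfl
  · exact div_nonneg (cf_nonneg E n) (Real.rpow_nonneg (Nat.cast_nonneg _) _)

lemma term_eq (s : ℝ) (n : ℕ) :
    LSeries.term (fun n => ((cf E n : ℝ) : ℂ)) (s : ℂ) n = ((tm E s n : ℝ) : ℂ) := by
  rw [LSeries.term_def, tm]
  split_ifs with h
  · simp
  · rw [Complex.ofReal_div, Complex.ofReal_cpow (Nat.cast_nonneg _)]
    simp

lemma tm_summable {s : ℝ} (hs : 1 < s) : Summable (tm E s) := by
  have h := (lsummable E hs)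
  rw [LSeriesSummable] at h
  have h2 : (LSeries.term (fun n => ((cf E n : ℝ) : ℂ)) (s : ℂ)) =
      fun n => ((tm E s n : ℝ) : ℂ) := funext (term_eq E s)
  rw [h2] at h
  exact_mod_cast h

/-- the Dedekind zeta function at a real point -/
noncomputable def Z (s : ℝ) : ℝ := ∑' n, tm E s n

lemma dz_eq (s : ℝ) : dedekindZeta E (s : ℂ) = ((Z E s : ℝ) : ℂ) := by
  rw [dedekindZeta, LSeries, Z, Complex.ofReal_tsum]
  refine tsum_congr fun n => ?_
  rw [← term_eq]
  simp [cf]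

lemma tendsto_Z : Tendsto (fun s : ℝ => (s - 1) * Z E s) (𝓝[>] 1) (𝓝 (dedekindZeta_residue E)) := by
  have h := tendsto_sub_one_mul_dedekindZeta_nhdsGT E
  have h2 := (Complex.continuous_re.tendsto _).comp h
  refine (h2.congr fun s => ?_)
  simp only [Function.comp_apply]
  rw [dz_eq, ← Complex.ofReal_one, ← Complex.ofReal_sub, ← Complex.ofReal_mul, Complex.ofReal_re]

lemma Z_nonneg (s : ℝ) : 0 ≤ Z E s := tsum_nonneg (tm_nonneg E s)

lemma Z_anti {s t : ℝ} (hs : 1 < s) (hst : s ≤ t) : Z E t ≤ Z E s := by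
  refine (tm_summable E (hs.trans_le hst)).tsum_le_tsum (fun n => ?_) (tm_summable E hs)
  unfold tm
  split_ifs with h
  · exact le_rfl
  · have hn : (1 : ℝ) ≤ n := by exact_mod_cast Nat.one_le_iff_ne_zero.mpr h
    refine div_le_div_of_nonneg_left (cf_nonneg E n) (Real.rpow_pos_of_pos (by linarith) _) ?_
    exact Real.rpow_le_rpow_of_exponent_le hn hst

/-- `(s - 1) ζ_E(s)` is bounded on `(1, 2)`. -/
lemma Z_bound : ∃ B : ℝ, 0 < B ∧ ∀ s : ℝ, 1 < s → s < 2 → (s - 1) * Z E s ≤ B := by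
  have h := (tendsto_Z E).eventually_lt_const (lt_add_one (dedekindZeta_residue E))
  rw [eventually_nhdsWithin_iff] at h
  obtain ⟨δ, hδ, hδ'⟩ := Metric.eventually_nhds_iff.mp h
  refine ⟨max (dedekindZeta_residue E + 1) (Z E (1 + δ / 2)), ?_, ?_⟩
  · exact lt_max_of_lt_left (by linarith [dedekindZeta_residue_pos E])
  · intro s hs1 hs2
    by_cases hs : s < 1 + δ
    · refine le_max_of_le_left (hδ' ?_ hs1).le
      rw [Real.dist_eq, abs_lt]
      constructor <;> linarith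
    · refine le_max_of_le_right ?_
      have h1 : Z E s ≤ Z E (1 + δ / 2) := Z_anti E (by linarith) (by linarith)
      have h2 := Z_nonneg E s
      nlinarith

/-- Finite sums over non-zero ideals are bounded by the zeta function. -/
lemma sum_le_Z (G : Finset (Ideal (𝓞 E))) (hG : ∀ I ∈ G, I ≠ ⊥) {s : ℝ} (hs : 1 < s) :
    ∑ I ∈ G, ((Ideal.absNorm I : ℕ) : ℝ) ^ (-s) ≤ Z E s := by
  classical
  rw [Finset.sum_comp (fun n : ℕ => ((n : ℕ) : ℝ) ^ (-s)) (fun I => Ideal.absNorm I)]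
  refine le_trans (Finset.sum_le_sum fun n hn => ?_)
    ((tm_summable E hs).sum_le_tsum (G.image fun I => Ideal.absNorm I) fun n _ => tm_nonneg E s n)
  obtain ⟨I, hI, rfl⟩ := Finset.mem_image.mp hn
  have hn0 : Ideal.absNorm I ≠ 0 := by
    rw [Ne, Ideal.absNorm_eq_zero_iff]
    exact hG I hI
  rw [tm, if_neg hn0, nsmul_eq_mul, Real.rpow_neg (Nat.cast_nonneg _), ← div_eq_mul_inv]
  refine div_le_div_of_nonneg_right ?_ (Real.rpow_nonneg (Nat.cast_nonneg _) _)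
  rw [cf]
  have hfin : Finite {J : Ideal (𝓞 E) // Ideal.absNorm J = Ideal.absNorm I} :=
    Ideal.finite_setOfPred_absNorm_eq (Ideal.absNorm I)
  have : (G.filter fun a => Ideal.absNorm a = Ideal.absNorm I).card ≤
      Nat.card {J : Ideal (𝓞 E) // Ideal.absNorm J = Ideal.absNorm I} := by
    rw [← Nat.card_eq_finsetCard]
    refine Nat.card_le_card_of_injective
      (fun x => ⟨x.1, (Finset.mem_filter.mp x.2).2⟩) ?_
    intro x y hxy
    exact Subtype.ext (by simpa using hxy)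
  exact_mod_cast this

lemma ne_bot_of_max (P : Ideal (𝓞 E)) (hP : P.IsMaximal) : P ≠ ⊥ :=
  Ring.ne_bot_of_isMaximal_of_not_isField hP (RingOfIntegers.not_isField E)

/-- Different sets of maximal ideals have different products. -/
lemma prod_sub {T T' : Finset (Ideal (𝓞 E))} (hT : ∀ P ∈ T, P.IsMaximal) (hT' : ∀ P ∈ T', P.IsMaximal)
    (h : ∏ P ∈ T, P = ∏ P ∈ T', P) : T ⊆ T' := by
  intro P hP
  have h1 : P ∣ ∏ P ∈ T', P := by
    rw [← h]
    exact Finset.dvd_prod_of_mem (fun P => P) hP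
  have hPp : Prime P := Ideal.prime_of_isPrime (ne_bot_of_max E P (hT P hP)) (hT P hP).isPrime
  obtain ⟨Q, hQ, hPQ⟩ := (Prime.dvd_finsetProd_iff hPp _).mp h1
  have h2 : Q ≤ P := Ideal.le_of_dvd hPQ
  have h3 : Q = P := (hT' Q hQ).eq_of_le (hT P hP).ne_top h2
  rwa [← h3]

lemma prod_le_Z (F : Finset (Ideal (𝓞 E))) (hF : ∀ P ∈ F, P.IsMaximal) {s : ℝ} (hs : 1 < s) :
    ∏ P ∈ F, (1 + ((Ideal.absNorm P : ℕ) : ℝ) ^ (-s)) ≤ Z E s := by
  classical
  rw [Finset.prod_one_add]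
  have h1 : ∀ T ∈ F.powerset, ∏ P ∈ T, ((Ideal.absNorm P : ℕ) : ℝ) ^ (-s) =
      ((Ideal.absNorm (∏ P ∈ T, P) : ℕ) : ℝ) ^ (-s) := by
    intro T _
    rw [map_prod, Nat.cast_prod, Real.finsetProd_rpow _ _ fun i _ => Nat.cast_nonneg _]
  rw [Finset.sum_congr rfl h1]
  have hinj : Set.InjOn (fun T : Finset (Ideal (𝓞 E)) => ∏ P ∈ T, P) (F.powerset : Set _) := by
    intro T hT T' hT' h
    have hT1 : ∀ P ∈ T, P.IsMaximal := fun P hP => hF P (Finset.mem_powerset.mp hT hP)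
    have hT2 : ∀ P ∈ T', P.IsMaximal := fun P hP => hF P (Finset.mem_powerset.mp hT' hP)
    exact Finset.Subset.antisymm (prod_sub E hT1 hT2 h) (prod_sub E hT2 hT1 h.symm)
  rw [← Finset.sum_image (f := fun I : Ideal (𝓞 E) => ((Ideal.absNorm I : ℕ) : ℝ) ^ (-s)) hinj]
  refine sum_le_Z E _ ?_ hs
  intro I hI
  obtain ⟨T, hT, rfl⟩ := Finset.mem_image.mp hI
  show (∏ P ∈ T, P) ≠ ⊥
  rw [← Ideal.zero_eq_bot, Finset.prod_ne_zero_iff]
  intro P hP
  rw [Ideal.zero_eq_bot]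
  exact ne_bot_of_max E P (hF P (Finset.mem_powerset.mp hT hP))

end

lemma log_ge {x : ℝ} (hx : 0 ≤ x) : x ≤ Real.log (1 + x) + x ^ 2 := by
  have h1 : 0 < 1 + x := by linarith
  have h2 := Real.one_sub_inv_le_log_of_pos h1
  have h3 : 1 - (1 + x)⁻¹ = x / (1 + x) := by field_simp; ring
  have h4 : x - x ^ 2 ≤ x / (1 + x) := by
    rw [le_div_iff₀ h1]
    nlinarith [pow_nonneg hx 3, pow_nonneg hx 2]
  linarith

theorem taskA : Pool.Agent.H755R5.Kum.TaskA := by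
  intro E _ _
  obtain ⟨B, hB, hB'⟩ := Z_bound E
  refine ⟨Real.log B + Z E 2, ?_⟩
  intro F hF s hs1 hs2
  have hx : ∀ P ∈ F, (0 : ℝ) ≤ ((Ideal.absNorm P : ℕ) : ℝ) ^ (-s) := fun P _ =>
    Real.rpow_nonneg (Nat.cast_nonneg _) _
  have hprod := prod_le_Z E F hF hs1
  have hpos : 0 < ∏ P ∈ F, (1 + ((Ideal.absNorm P : ℕ) : ℝ) ^ (-s)) :=
    Finset.prod_pos fun P hP => by linarith [hx P hP]
  have hs0 : 0 < s - 1 := by linarith
  have hlog : ∑ P ∈ F, Real.log (1 + ((Ideal.absNorm P : ℕ) : ℝ) ^ (-s)) ≤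
      Real.log (1 / (s - 1)) + Real.log B := by
    rw [← Real.log_prod (fun P hP => (show (1 : ℝ) + ((Ideal.absNorm P : ℕ) : ℝ) ^ (-s) ≠ 0 from
        (by linarith [hx P hP] : (0 : ℝ) < 1 + ((Ideal.absNorm P : ℕ) : ℝ) ^ (-s)).ne')),
      ← Real.log_mul (by positivity) hB.ne']
    refine Real.log_le_log hpos (hprod.trans ?_)
    have := hB' s hs1 hs2
    rw [one_div, inv_mul_eq_div, le_div_iff₀ hs0, mul_comm]
    exact this
  have hsq : ∑ P ∈ F, (((Ideal.absNorm P : ℕ) : ℝ) ^ (-s)) ^ 2 ≤ Z E 2 := by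
    refine le_trans (Finset.sum_le_sum fun P hP => ?_)
      (sum_le_Z E F (fun P hP => ne_bot_of_max E P (hF P hP)) (s := 2) (by norm_num))
    have hN : (1 : ℝ) ≤ ((Ideal.absNorm P : ℕ) : ℝ) := by
      have : Ideal.absNorm P ≠ 0 := by
        rw [Ne, Ideal.absNorm_eq_zero_iff]
        exact ne_bot_of_max E P (hF P hP)
      exact_mod_cast Nat.one_le_iff_ne_zero.mpr this
    rw [← Real.rpow_natCast, ← Real.rpow_mul (by linarith)]
    refine Real.rpow_le_rpow_of_exponent_le hN ?_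
    push_cast
    linarith
  have hfin : ∑ P ∈ F, ((Ideal.absNorm P : ℕ) : ℝ) ^ (-s) ≤
      ∑ P ∈ F, (Real.log (1 + ((Ideal.absNorm P : ℕ) : ℝ) ^ (-s)) +
        (((Ideal.absNorm P : ℕ) : ℝ) ^ (-s)) ^ 2) :=
    Finset.sum_le_sum fun P hP => log_ge (hx P hP)
  rw [Finset.sum_add_distrib] at hfin
  linarith

end Pool.Agent.H135R3.KumA
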