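import Mathlib

/-! Weakly regular sequences and short exact sequences (two halves of the depth lemma
for an explicit sequence). -/

set_option autoImplicit false

namespace Pool.Agent.H135R3.SD2

open RingTheory.Sequence Function

universe u v

variable {R : Type u} [CommRing R]

theorem map_inj {M' M M'' : Type v} [AddCommGroup M'] [AddCommGroup M] [AddCommGroup M'']
    [Module R M'] [Module R M] [Module R M''] {f : M' →ₗ[R] M} {g : M →ₗ[R] M''}
    (hf : Injective f) (hfg : Exact f g) {r : R} (hr : IsSMulRegular M'' r) :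
    Injective (QuotSMulTop.map r f) := by
  have h0 : Exact (0 : PUnit.{v+1} →ₗ[R] M') f := by
    intro x
    constructor
    · intro hx
      exact ⟨0, by
        have : x = 0 := hf (by rw [hx, map_zero])
        simp [this]⟩
    · rintro ⟨y, rfl⟩
      simp
  have h1 := QuotSMulTop.map_first_exact_on_four_term_exact_of_isSMulRegular_last h0 hfg hr
  rw [injective_iff_map_eq_zero]
  intro x hx
  obtain ⟨y, rfl⟩ := (h1 x).1 hx
  rw [map_zero]
  rfl

theorem wr_mid (rs : List R) : ∀ (M' M M'' : Type v) [AddCommGroup M'] [AddCommGroup M]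
    [AddCommGroup M''] [Module R M'] [Module R M] [Module R M''] (f : M' →ₗ[R] M)
    (g : M →ₗ[R] M''), Injective f → Exact f g → Surjective g →
    IsWeaklyRegular M' rs → IsWeaklyRegular M'' rs → IsWeaklyRegular M rs := by
  induction rs with
  | nil => intro M' M M'' _ _ _ _ _ _ f g hf hfg hg h1 h2; exact IsWeaklyRegular.nil R M
  | cons r rs ih =>
    intro M' M M'' _ _ _ _ _ _ f g hf hfg hg h1 h2
    rw [isWeaklyRegular_cons_iff] at h1 h2 ⊢
    refine ⟨isSMulRegular_of_range_eq_ker hf (LinearMap.exact_iff.1 hfg).symm h1.1 h2.1, ?_⟩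
    exact ih _ _ _ (QuotSMulTop.map r f) (QuotSMulTop.map r g) (map_inj hf hfg h2.1)
      (QuotSMulTop.map_exact r hfg hg) (QuotSMulTop.map_surjective r hg) h1.2 h2.2

theorem wr_sub (r : R) (rs : List R) : ∀ (M' M M'' : Type v) [AddCommGroup M'] [AddCommGroup M]
    [AddCommGroup M''] [Module R M'] [Module R M] [Module R M''] (f : M' →ₗ[R] M)
    (g : M →ₗ[R] M''), Injective f → Exact f g → Surjective g →
    IsWeaklyRegular M (rs ++ [r]) → IsWeaklyRegular M'' rs →
    IsWeaklyRegular M' (rs ++ [r]) := by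
  induction rs with
  | nil =>
    intro M' M M'' _ _ _ _ _ _ f g hf hfg hg h1 h2
    simp only [List.nil_append] at h1 ⊢
    rw [isWeaklyRegular_cons_iff] at h1 ⊢
    exact ⟨h1.1.of_injective f hf, IsWeaklyRegular.nil R _⟩
  | cons s rs ih =>
    intro M' M M'' _ _ _ _ _ _ f g hf hfg hg h1 h2
    rw [List.cons_append, isWeaklyRegular_cons_iff] at h1 ⊢
    rw [isWeaklyRegular_cons_iff] at h2
    refine ⟨h1.1.of_injective f hf, ?_⟩
    exact ih _ _ _ (QuotSMulTop.map s f) (QuotSMulTop.map s g) (map_inj hf hfg h2.1)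
      (QuotSMulTop.map_exact s hfg hg) (QuotSMulTop.map_surjective s hg) h1.2 h2.2

end Pool.Agent.H135R3.SD2
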