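import Mathlib

/-! The linear forms `θ_k = ∑ a_v^k x_v` form a weakly regular sequence on `S/(x_v : v ∈ C)`. -/

set_option autoImplicit false

namespace Pool.Agent.H135R3.SD2

open RingTheory.Sequence MvPolynomial

variable {K : Type} [Field K]

/-- the variables `X 0, …, X (m-1)` are a weakly regular sequence. -/
theorem wr_vars (w m : ℕ) (hm : m ≤ w) :
    IsWeaklyRegular (MvPolynomial (Fin w) K)
      ((List.range m).map (fun k => if h : k < w then (X ⟨k, h⟩ : MvPolynomial (Fin w) K) else 0)) := by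
  constructor
  intro i hi
  simp only [List.length_map, List.length_range] at hi
  have hiw : i < w := lt_of_lt_of_le hi hm
  rw [isSMulRegular_quotient_iff_mem_of_smul_mem]
  intro f hf
  have key : (Ideal.ofList (((List.range m).map (fun k => if h : k < w then
      (X ⟨k, h⟩ : MvPolynomial (Fin w) K) else 0)).take i) • ⊤ :
      Submodule (MvPolynomial (Fin w) K) (MvPolynomial (Fin w) K)) =
      Ideal.span (X '' {j : Fin w | j.1 < i}) := by
    rw [smul_eq_mul, Ideal.mul_top, Ideal.ofList]
    congr 1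
    ext p
    simp only [Set.mem_setOf, List.mem_take_iff_getElem, List.length_map, List.length_range,
      List.getElem_map, List.getElem_range, Set.mem_image]
    constructor
    · rintro ⟨j, hj, rfl⟩
      have hj' : j < i ∧ j < m := by simpa using hj
      refine ⟨⟨j, lt_of_lt_of_le hj'.2 hm⟩, hj'.1, ?_⟩
      rw [dif_pos (lt_of_lt_of_le hj'.2 hm)]
    · rintro ⟨j, hj, rfl⟩
      refine ⟨j.1, ?_, ?_⟩
      · simp; omega
      · rw [dif_pos j.2]
  rw [key] at hf ⊢
  rw [mem_ideal_span_X_image] at hf ⊢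
  intro a ha
  have h1 : a + Finsupp.single (⟨i, hiw⟩ : Fin w) 1 ∈
      (((List.range m).map (fun k => if h : k < w then
      (X ⟨k, h⟩ : MvPolynomial (Fin w) K) else 0))[i]'(by simpa using hi) • f).support := by
    rw [List.getElem_map, List.getElem_range, dif_pos hiw, smul_eq_mul, mem_support_iff,
      mul_comm, coeff_mul_X]
    exact mem_support_iff.1 ha
  obtain ⟨j, hj, hne⟩ := hf _ h1
  refine ⟨j, hj, ?_⟩
  have hji : j ≠ ⟨i, hiw⟩ := by
    intro h
    have hj2 : j.1 < i := hj
    rw [h] at hj2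
    exact lt_irrefl _ hj2
  rw [Finsupp.add_apply, Finsupp.single_eq_of_ne hji] at hne
  simpa using hne

/-- linear change of coordinates -/
noncomputable def lin {w : ℕ} {σ : Type} [Fintype σ] (M : Fin w → σ → K) :
    MvPolynomial (Fin w) K →ₐ[K] MvPolynomial σ K :=
  aeval (fun k => ∑ j, C (M k j) * X j)

theorem lin_comp {w : ℕ} {σ : Type} [Fintype σ] (M : Fin w → σ → K) (N : σ → Fin w → K) :
    (aeval (fun j => ∑ k, C (N j k) * X k) : MvPolynomial σ K →ₐ[K] MvPolynomial (Fin w) K).comp
      (lin M) = aeval (fun k => ∑ l, C (∑ j, M k j * N j l) * X l) := by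
  apply algHom_ext
  intro k
  simp only [AlgHom.comp_apply, lin, aeval_X, map_sum, map_mul, algHom_C, algebraMap_eq]
  simp only [Finset.mul_sum, Finset.sum_mul]
  rw [Finset.sum_comm]
  refine Finset.sum_congr rfl fun l _ => Finset.sum_congr rfl fun j _ => ?_
  ring

theorem lin_comp' {w : ℕ} {σ : Type} [Fintype σ] (M : Fin w → σ → K) (N : σ → Fin w → K) :
    (lin M).comp (aeval (fun j => ∑ k, C (N j k) * X k) :
      MvPolynomial σ K →ₐ[K] MvPolynomial (Fin w) K)
       = aeval (fun j => ∑ l, C (∑ k, N j k * M k l) * X l) := by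
  apply algHom_ext
  intro k
  simp only [AlgHom.comp_apply, lin, aeval_X, map_sum, map_mul, algHom_C, algebraMap_eq]
  simp only [Finset.mul_sum, Finset.sum_mul]
  rw [Finset.sum_comm]
  refine Finset.sum_congr rfl fun l _ => Finset.sum_congr rfl fun j _ => ?_
  ring

/-- the linear change of coordinates as an equivalence -/
noncomputable def linEquiv {w : ℕ} {σ : Type} [Fintype σ] [DecidableEq σ] (M : Fin w → σ → K)
    (N : σ → Fin w → K) (h1 : ∀ k l, ∑ j, M k j * N j l = if k = l then 1 else 0)
    (h2 : ∀ j l, ∑ k, N j k * M k l = if j = l then 1 else 0) :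
    MvPolynomial (Fin w) K ≃ₐ[K] MvPolynomial σ K :=
  AlgEquiv.ofAlgHom (lin M)
    (aeval (fun j => ∑ k, C (N j k) * X k) : MvPolynomial σ K →ₐ[K] MvPolynomial (Fin w) K)
    (by
      rw [lin_comp']
      apply algHom_ext
      intro j
      simp [h2])
    (by
      rw [lin_comp]
      apply algHom_ext
      intro j
      simp [h1])

theorem wr_lin {w m : ℕ} (hm : m ≤ w) {σ : Type} [Fintype σ] [DecidableEq σ]
    (hc : Fintype.card σ = w) (b : σ → K) (hb : Function.Injective b) :
    IsWeaklyRegular (MvPolynomial σ K)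
      ((List.range m).map (fun k => (∑ j, C (b j ^ k) * X j : MvPolynomial σ K))) := by
  classical
  let e : Fin w ≃ σ := (Fintype.equivFinOfCardEq hc).symm
  let V : Matrix (Fin w) (Fin w) K := Matrix.vandermonde (fun i => b (e i))
  have hdet : V.det ≠ 0 := by
    rw [Matrix.det_vandermonde_ne_zero_iff]
    exact hb.comp e.injective
  have hu : IsUnit V.det := isUnit_iff_ne_zero.2 hdet
  -- M k j = b j ^ k = V (e.symm j) k
  let M : Fin w → σ → K := fun k j => b j ^ (k : ℕ)
  let N : σ → Fin w → K := fun j k => V⁻¹ k (e.symm j)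
  have hMV : ∀ k j, M k j = V (e.symm j) k := by
    intro k j
    simp [M, V, Matrix.vandermonde_apply]
  have h1 : ∀ k l, ∑ j, M k j * N j l = if k = l then 1 else 0 := by
    intro k l
    have : (V⁻¹ * V) l k = if l = k then 1 else 0 := by
      rw [Matrix.nonsing_inv_mul _ hu, Matrix.one_apply]
    rw [Matrix.mul_apply] at this
    rw [← e.sum_comp]
    simp only [hMV, N, Equiv.symm_apply_apply]
    simp only [mul_comm] at this ⊢
    rw [this]
    simp only [eq_comm]
  have h2 : ∀ j l, ∑ k, N j k * M k l = if j = l then 1 else 0 := by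
    intro j l
    have : (V * V⁻¹) (e.symm l) (e.symm j) = if l = j then 1 else 0 := by
      rw [Matrix.mul_nonsing_inv _ hu, Matrix.one_apply]
      simp
    rw [Matrix.mul_apply] at this
    simp only [hMV, N]
    simp only [mul_comm] at this ⊢
    rw [this]
    simp only [eq_comm]
  obtain ⟨L, hL⟩ : ∃ L : MvPolynomial (Fin w) K ≃ₐ[K] MvPolynomial σ K,
      ∀ k, L (X k) = ∑ j, C (M k j) * X j :=
    ⟨linEquiv M N h1 h2, by intro k; simp [linEquiv, lin]⟩
  have h := wr_vars (K := K) w m hm
  refine (AddEquiv.isWeaklyRegular_congr (e := L.toRingEquiv.toAddEquiv) (bs :=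
    (List.range m).map (fun k => (∑ j, C (b j ^ k) * X j : MvPolynomial σ K))) ?_).1 h
  rw [List.forall₂_map_left_iff, List.forall₂_map_right_iff, List.forall₂_same]
  intro k hk x
  rw [List.mem_range] at hk
  have hkw : k < w := lt_of_lt_of_le hk hm
  rw [dif_pos hkw]
  change L (X ⟨k, hkw⟩ * x) = _ * L x
  rw [map_mul, hL]

section quot

variable {n : ℕ}

/-- the linear forms -/
noncomputable def theta (a : Fin n → K) (k : ℕ) : MvPolynomial (Fin n) K :=
  ∑ v, C (a v ^ k) * X v

/-- restriction to the coordinate subspace -/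
noncomputable def rho (Cs : Finset (Fin n)) :
    MvPolynomial (Fin n) K →ₐ[K] MvPolynomial {v : Fin n // v ∉ Cs} K :=
  aeval (fun v => if h : v ∉ Cs then X ⟨v, h⟩ else 0)

/-- the prime ideal of a set of variables -/
noncomputable def PC (K : Type) [Field K] (Cs : Finset (Fin n)) : Ideal (MvPolynomial (Fin n) K) :=
  Ideal.span (X '' (Cs : Set (Fin n)))

theorem rho_ker (Cs : Finset (Fin n)) : RingHom.ker (rho (K := K) Cs) = PC K Cs := by
  apply le_antisymm
  · intro p hp
    have h : ((Ideal.Quotient.mkₐ K (PC K Cs)).comp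
        ((rename (Subtype.val : {v : Fin n // v ∉ Cs} → Fin n)).comp (rho (K := K) Cs))) =
        Ideal.Quotient.mkₐ K (PC K Cs) := by
      apply algHom_ext
      intro v
      simp only [AlgHom.comp_apply, rho, aeval_X]
      split_ifs with h
      swap
      · rw [rename_X]
      · rw [map_zero, map_zero]
        symm
        rw [Ideal.Quotient.mkₐ_eq_mk, Ideal.Quotient.eq_zero_iff_mem]
        exact Ideal.subset_span ⟨v, by simpa using h, rfl⟩
    have h2 := congrArg (fun f => f p) h
    simp only [AlgHom.comp_apply] at h2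
    rw [RingHom.mem_ker] at hp
    rw [hp, map_zero, map_zero] at h2
    rw [← Ideal.Quotient.eq_zero_iff_mem]
    exact h2.symm
  · rw [PC, Ideal.span_le]
    rintro _ ⟨v, hv, rfl⟩
    simp only [SetLike.mem_coe, RingHom.mem_ker, rho, aeval_X]
    rw [dif_neg]
    simpa using hv

theorem rho_surj (Cs : Finset (Fin n)) : Function.Surjective (rho (K := K) Cs) := by
  intro p
  refine ⟨rename Subtype.val p, ?_⟩
  have h : (rho (K := K) Cs).comp
      (rename (Subtype.val : {v : Fin n // v ∉ Cs} → Fin n)) = AlgHom.id K _ := by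
    apply algHom_ext
    intro v
    simp only [AlgHom.comp_apply, rho, rename_X, aeval_X, AlgHom.id_apply]
    rw [dif_pos v.2]
  exact congrArg (fun f => f p) h

theorem rho_theta (Cs : Finset (Fin n)) (a : Fin n → K) (k : ℕ) :
    rho Cs (theta a k) = ∑ j : {v : Fin n // v ∉ Cs}, C (a j.1 ^ k) * X j := by
  classical
  simp only [theta, map_sum, map_mul, rho, algHom_C, algebraMap_eq, aeval_X]
  rw [← Finset.sum_filter_add_sum_filter_not Finset.univ (fun v : Fin n => v ∉ Cs)]
  rw [Finset.sum_eq_zero (s := Finset.univ.filter (fun v : Fin n => ¬ (v ∉ Cs)))]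
  · rw [add_zero]
    rw [Finset.sum_subtype (Finset.univ.filter (fun v : Fin n => v ∉ Cs)) (p := fun v => v ∉ Cs)
      (by simp)]
    refine Finset.sum_congr rfl fun x _ => ?_
    rw [dif_pos x.2]
  · intro v hv
    rw [dif_neg (Finset.mem_filter.1 hv).2, mul_zero]

/-- the main statement on linear forms -/
theorem wr_theta (Cs : Finset (Fin n)) (a : Fin n → K) (ha : Function.Injective a) (m : ℕ)
    (hm : Cs.card + m ≤ n) :
    IsWeaklyRegular (MvPolynomial (Fin n) K ⧸ PC K Cs) ((List.range m).map (theta a)) := by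
  classical
  have hc : Fintype.card {v : Fin n // v ∉ Cs} = n - Cs.card := by
    rw [Fintype.card_subtype_compl]
    simp
  have h := wr_lin (K := K) (w := n - Cs.card) (m := m) (by omega) hc (fun j => a j.1)
    (ha.comp Subtype.val_injective)
  let e1 : (MvPolynomial (Fin n) K ⧸ PC K Cs) ≃+*
      (MvPolynomial (Fin n) K ⧸ RingHom.ker (rho (K := K) Cs)) :=
    Ideal.quotEquivOfEq (rho_ker Cs).symm
  let e2 : (MvPolynomial (Fin n) K ⧸ RingHom.ker (rho (K := K) Cs)) ≃+*
      MvPolynomial {v : Fin n // v ∉ Cs} K :=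
    RingHom.quotientKerEquivOfSurjective (f := (rho (K := K) Cs).toRingHom) (rho_surj Cs)
  obtain ⟨e, he⟩ : ∃ e : (MvPolynomial (Fin n) K ⧸ PC K Cs) ≃+*
      MvPolynomial {v : Fin n // v ∉ Cs} K, ∀ p, e (Ideal.Quotient.mk _ p) = rho Cs p :=
    ⟨e1.trans e2, fun p => rfl⟩
  refine (AddEquiv.isWeaklyRegular_congr (e := e.toAddEquiv) ?_).2 h
  rw [List.forall₂_map_left_iff, List.forall₂_map_right_iff, List.forall₂_same]
  intro k hk x
  obtain ⟨x, rfl⟩ := Ideal.Quotient.mk_surjective x
  change e (Ideal.Quotient.mk _ (theta a k * x)) = _ * e (Ideal.Quotient.mk _ x)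
  rw [he, he, map_mul, rho_theta]

end quot

end Pool.Agent.H135R3.SD2
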