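import Mathlib
import Pool.Agent.H135R3.SDExact
import Pool.Agent.H135R3.SDVand

/-! Monomial ideals attached to families of (zero) sets and the two kinds of steps. -/

set_option autoImplicit false

namespace Pool.Agent.H135R3.SD2

open RingTheory.Sequence MvPolynomial

variable {K : Type} [Field K] {n : ℕ}

/-- zero set of an exponent vector -/
def Z (a : Fin n →₀ ℕ) : Finset (Fin n) := a.supportᶜ

theorem mem_Z (a : Fin n →₀ ℕ) (v : Fin n) : v ∈ Z a ↔ a v = 0 := by
  simp [Z]

/-- down-closed families -/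
def Down (P : Finset (Fin n) → Prop) : Prop := ∀ s t, s ⊆ t → P t → P s

variable (K) in
/-- the ideal of all monomials whose zero set is in the family -/
noncomputable def I (P : Finset (Fin n) → Prop) : Ideal (MvPolynomial (Fin n) K) :=
  Ideal.span ((fun a => monomial a (1 : K)) '' {a | P (Z a)})

theorem mem_I {P : Finset (Fin n) → Prop} (hP : Down P) (p : MvPolynomial (Fin n) K) :
    p ∈ I K P ↔ ∀ a ∈ p.support, P (Z a) := by
  rw [I, mem_ideal_span_monomial_image]
  constructor
  · intro h a ha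
    obtain ⟨b, hb, hba⟩ := h a ha
    refine hP _ _ ?_ hb
    intro v hv
    rw [mem_Z] at hv ⊢
    have := hba v
    omega
  · intro h a ha
    exact ⟨a, h a ha, le_rfl⟩

theorem monomial_mem_I {P : Finset (Fin n) → Prop} (hP : Down P) (a : Fin n →₀ ℕ) :
    monomial a (1 : K) ∈ I K P ↔ P (Z a) := by
  classical
  rw [mem_I hP]
  simp [support_monomial]

/-- squarefree exponent vector with zero set `D` -/
noncomputable def ev (D : Finset (Fin n)) : Fin n →₀ ℕ :=
  Finsupp.equivFunOnFinite.symm (fun v => if v ∈ D then 0 else 1)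

theorem ev_apply (D : Finset (Fin n)) (v : Fin n) : ev D v = if v ∈ D then 0 else 1 := rfl

theorem Z_ev (D : Finset (Fin n)) : Z (ev D) = D := by
  ext v
  rw [mem_Z, ev_apply]
  split_ifs with h <;> simp [h]

theorem ev_le {D : Finset (Fin n)} {a : Fin n →₀ ℕ} : ev D ≤ a ↔ Z a ⊆ D := by
  constructor
  · intro h v hv
    rw [mem_Z] at hv
    have := h v
    rw [ev_apply] at this
    by_contra hc
    rw [if_neg hc] at this
    omega
  · intro h v
    rw [ev_apply]
    split_ifs with hv
    · omega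
    · have : v ∉ Z a := fun h2 => hv (h h2)
      rw [mem_Z] at this
      omega

/-- data of a step: `P = P' ⊔ [C, D]` -/
structure Step (P' P : Finset (Fin n) → Prop) (Cs D : Finset (Fin n)) : Prop where
  down' : Down P'
  down : Down P
  sub : Cs ⊆ D
  h1 : ∀ s, s ⊆ D → (P' s ↔ ¬ Cs ⊆ s)
  h2 : ∀ s, P s ↔ (P' s ∨ (Cs ⊆ s ∧ s ⊆ D))

theorem Step.le {P' P : Finset (Fin n) → Prop} {Cs D : Finset (Fin n)} (h : Step P' P Cs D) :
    I K P' ≤ I K P := by
  intro p hp
  rw [mem_I h.down'] at hp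
  rw [mem_I h.down]
  intro a ha
  exact (h.h2 _).2 (Or.inl (hp a ha))

theorem Step.wr_quot {P' P : Finset (Fin n) → Prop} {Cs D : Finset (Fin n)}
    (h : Step P' P Cs D) (rs : List (MvPolynomial (Fin n) K))
    (hrs : IsWeaklyRegular (MvPolynomial (Fin n) K ⧸ PC K Cs) rs) :
    IsWeaklyRegular (↥(I K P) ⧸ Submodule.comap (Submodule.subtype (I K P)) (I K P')) rs := by
  classical
  have hm : monomial (ev D) (1 : K) ∈ I K P := by
    rw [monomial_mem_I h.down, Z_ev, h.h2]
    exact Or.inr ⟨h.sub, subset_rfl⟩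
  set N : Submodule (MvPolynomial (Fin n) K) ↥(I K P) :=
    Submodule.comap (Submodule.subtype (I K P)) (I K P') with hN
  have hNmem : ∀ x : ↥(I K P), x ∈ N ↔ (x : MvPolynomial (Fin n) K) ∈ I K P' := fun x => Iff.rfl
  let g : MvPolynomial (Fin n) K →ₗ[MvPolynomial (Fin n) K] (↥(I K P) ⧸ N) :=
    N.mkQ ∘ₗ (LinearMap.toSpanSingleton (MvPolynomial (Fin n) K) ↥(I K P) ⟨_, hm⟩)
  have hker : LinearMap.ker g = PC K Cs := by
    ext r
    rw [LinearMap.mem_ker]
    change N.mkQ (r • (⟨_, hm⟩ : ↥(I K P))) = 0 ↔ _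
    rw [Submodule.mkQ_apply, Submodule.Quotient.mk_eq_zero, hNmem]
    change r * monomial (ev D) (1 : K) ∈ I K P' ↔ _
    rw [mem_I h.down', PC, mem_ideal_span_X_image]
    constructor
    · intro h3 a ha
      have h4 := h3 (a + ev D) (by
        rw [mem_support_iff, coeff_mul_monomial, mul_one]
        exact mem_support_iff.1 ha)
      rw [h.h1] at h4
      · by_contra hc
        push Not at hc
        apply h4
        intro v hv
        rw [mem_Z, Finsupp.add_apply, hc v hv, ev_apply, if_pos (h.sub hv)]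
      · rw [← ev_le]
        exact le_add_self
    · intro h3 b hb
      rw [mem_support_iff, coeff_mul_monomial'] at hb
      split_ifs at hb with h4
      · rw [mul_one] at hb
        obtain ⟨v, hv, hv2⟩ := h3 _ (mem_support_iff.2 hb)
        rw [h.h1 _ (ev_le.1 h4)]
        intro hc
        have := hc (show v ∈ Cs from hv)
        rw [mem_Z] at this
        apply hv2
        rw [Finsupp.tsub_apply]
        omega
      · exact absurd rfl hb
  have hsup : I K P ≤ I K P' ⊔ Ideal.span {monomial (ev D) (1 : K)} := by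
    rw [I, Ideal.span_le]
    rintro _ ⟨a, ha, rfl⟩
    rcases (h.h2 _).1 ha with h3 | h3
    · exact Ideal.mem_sup_left ((monomial_mem_I h.down' a).2 h3)
    · apply Ideal.mem_sup_right
      rw [Ideal.mem_span_singleton']
      refine ⟨monomial (a - ev D) 1, ?_⟩
      rw [monomial_mul, mul_one, tsub_add_cancel_of_le (ev_le.2 h3.2)]
  have hsurj : Function.Surjective g := by
    intro y
    obtain ⟨x, rfl⟩ := N.mkQ_surjective y
    obtain ⟨j, hj, z, hz, hjz⟩ := Submodule.mem_sup.1 (hsup x.2)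
    rw [Ideal.mem_span_singleton'] at hz
    obtain ⟨r, rfl⟩ := hz
    refine ⟨r, ?_⟩
    change N.mkQ (r • (⟨_, hm⟩ : ↥(I K P))) = N.mkQ x
    rw [← sub_eq_zero, ← map_sub, Submodule.mkQ_apply, Submodule.Quotient.mk_eq_zero, hNmem]
    have : ((r • (⟨_, hm⟩ : ↥(I K P)) - x : ↥(I K P)) : MvPolynomial (Fin n) K) = -j := by
      change r * monomial (ev D) (1 : K) - (x : MvPolynomial (Fin n) K) = -j
      rw [← hjz]
      ring
    rw [this]
    exact neg_mem hj
  have e1 : (MvPolynomial (Fin n) K ⧸ PC K Cs) ≃ₗ[MvPolynomial (Fin n) K]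
      (MvPolynomial (Fin n) K ⧸ LinearMap.ker g) :=
    Submodule.quotEquivOfEq _ _ hker.symm
  have e2 := g.quotKerEquivOfSurjective hsurj
  exact ((e1.trans e2).isWeaklyRegular_congr rs).1 hrs

/-- adding step -/
theorem Step.add {P' P : Finset (Fin n) → Prop} {Cs D : Finset (Fin n)}
    (h : Step P' P Cs D) (rs : List (MvPolynomial (Fin n) K))
    (hrs : IsWeaklyRegular (MvPolynomial (Fin n) K ⧸ PC K Cs) rs)
    (h' : IsWeaklyRegular (↥(I K P')) rs) : IsWeaklyRegular (↥(I K P)) rs := by
  refine wr_mid rs _ _ _ (Submodule.inclusion h.le) (Submodule.mkQ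
    (Submodule.comap (Submodule.subtype (I K P)) (I K P'))) (Submodule.inclusion_injective _) ?_
      (Submodule.mkQ_surjective _) h' (h.wr_quot rs hrs)
  intro x
  rw [Submodule.mkQ_apply, Submodule.Quotient.mk_eq_zero]
  constructor
  · intro hx
    exact ⟨⟨x.1, hx⟩, rfl⟩
  · rintro ⟨y, rfl⟩
    exact y.2

/-- removing step -/
theorem Step.remove {P' P : Finset (Fin n) → Prop} {Cs D : Finset (Fin n)}
    (h : Step P' P Cs D) (r : MvPolynomial (Fin n) K) (rs : List (MvPolynomial (Fin n) K))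
    (hrs : IsWeaklyRegular (MvPolynomial (Fin n) K ⧸ PC K Cs) rs)
    (h' : IsWeaklyRegular (↥(I K P)) (rs ++ [r])) : IsWeaklyRegular (↥(I K P')) (rs ++ [r]) := by
  refine wr_sub r rs _ _ _ (Submodule.inclusion h.le) (Submodule.mkQ
    (Submodule.comap (Submodule.subtype (I K P)) (I K P'))) (Submodule.inclusion_injective _) ?_
      (Submodule.mkQ_surjective _) h' (h.wr_quot rs hrs)
  intro x
  rw [Submodule.mkQ_apply, Submodule.Quotient.mk_eq_zero]
  constructor
  · intro hx
    exact ⟨⟨x.1, hx⟩, rfl⟩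
  · rintro ⟨y, rfl⟩
    exact y.2

end Pool.Agent.H135R3.SD2
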