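import Mathlib
import Pool.Agent.H135R3.SDStep

/-! Gluing one copy of the relative complex `Q0` onto a family. -/

set_option autoImplicit false

namespace Pool.Agent.H135R3.SD2

open RingTheory.Sequence MvPolynomial

variable {K : Type} [Field K] {n : ℕ}

/-- the nine edges of the model generating the relative complex -/
def E0 : Finset (Finset (Fin 6)) :=
  {{0,2},{1,2},{1,3},{2,3},{0,4},{1,4},{2,4},{0,5},{4,5}}

/-- the five edges of the path -/
def T0 : Finset (Finset (Fin 6)) := {{0,1},{0,3},{3,4},{1,5},{2,5}}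

/-- the five tetrahedra -/
def X0 : Finset (Finset (Fin 6)) := {{0,1,2,3},{0,1,2,4},{1,2,3,4},{0,1,4,5},{0,2,4,5}}

/-- no edge of `E0` -/
def noE (s : Finset (Fin 6)) : Prop := ∀ e ∈ E0, ¬ e ⊆ s

instance (s : Finset (Fin 6)) : Decidable (noE s) := by unfold noE; infer_instance

/-- the relative complex -/
def Q0 : Finset (Finset (Fin 6)) :=
  Finset.univ.filter (fun s => (∃ e ∈ E0, e ⊆ s) ∧ (∃ t ∈ X0, s ⊆ t))

/-- add the faces of `A`, embedded by `w`, to `P` -/
def ext (P : Finset (Fin n) → Prop) (w : Fin 6 ↪ Fin n) (A : Finset (Finset (Fin 6))) :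
    Finset (Fin n) → Prop := fun s => P s ∨ ∃ s0 ∈ A, s = s0.map w

/-- closure condition for the intermediate families -/
def cl (A : Finset (Finset (Fin 6))) : Prop :=
  ∀ s0 ∈ A, ¬ ({3, 5} : Finset (Fin 6)) ⊆ s0 ∧ ∀ s1 ∈ s0.powerset, noE s1 ∨ s1 ∈ A

instance (A : Finset (Finset (Fin 6))) : Decidable (cl A) := by unfold cl; infer_instance

/-- hypotheses on the family for gluing -/
structure Ok (P : Finset (Fin n) → Prop) (w : Fin 6 ↪ Fin n) : Prop where
  down : Down P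
  hT : ∀ e ∈ T0, P (e.map w)
  hE : ∀ e ∈ E0, ¬ P (e.map w)

theorem noE_path : ∀ s : Finset (Fin 6), noE s → ¬ ({3, 5} : Finset (Fin 6)) ⊆ s →
    ∃ t ∈ T0, s ⊆ t := by decide +kernel

theorem Ok.iff {P : Finset (Fin n) → Prop} {w : Fin 6 ↪ Fin n} (h : Ok P w)
    {s : Finset (Fin 6)} (hs : ¬ ({3, 5} : Finset (Fin 6)) ⊆ s) : P (s.map w) ↔ noE s := by
  constructor
  · intro hp e he hes
    exact h.hE e he (h.down _ _ (Finset.map_subset_map.2 hes) hp)
  · intro hn
    obtain ⟨t, ht, hst⟩ := noE_path s hn hs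
    exact h.down _ _ (Finset.map_subset_map.2 hst) (h.hT t ht)

theorem Ok.ext_iff {P : Finset (Fin n) → Prop} {w : Fin 6 ↪ Fin n} (h : Ok P w)
    (A : Finset (Finset (Fin 6))) {s : Finset (Fin 6)}
    (hs : ¬ ({3, 5} : Finset (Fin 6)) ⊆ s) : ext P w A (s.map w) ↔ (noE s ∨ s ∈ A) := by
  unfold ext
  rw [h.iff hs]
  constructor
  · rintro (h1 | ⟨s0, h0, h1⟩)
    · exact Or.inl h1
    · rw [Finset.map_inj] at h1
      rw [h1]
      exact Or.inr h0
  · rintro (h1 | h1)
    · exact Or.inl h1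
    · exact Or.inr ⟨s, h1, rfl⟩

theorem Ok.ext_down {P : Finset (Fin n) → Prop} {w : Fin 6 ↪ Fin n} (h : Ok P w)
    {A : Finset (Finset (Fin 6))} (hA : cl A) : Down (ext P w A) := by
  rintro s t hst (ht | ⟨s0, h0, rfl⟩)
  · exact Or.inl (h.down _ _ hst ht)
  · rw [Finset.subset_map_iff] at hst
    obtain ⟨s1, h1, rfl⟩ := hst
    obtain ⟨h2, h3⟩ := hA s0 h0
    rw [h.ext_iff A (fun hc => h2 (hc.trans h1))]
    exact h3 s1 (Finset.mem_powerset.2 h1)

/-- the decidable conditions for a step -/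
def stepCond (A' A : Finset (Finset (Fin 6))) (C0 D0 : Finset (Fin 6)) : Prop :=
  cl A' ∧ cl A ∧ C0 ⊆ D0 ∧ ¬ ({3, 5} : Finset (Fin 6)) ⊆ D0 ∧
  (∀ s ∈ D0.powerset, ((noE s ∨ s ∈ A') ↔ ¬ C0 ⊆ s)) ∧
  (∀ s : Finset (Fin 6), (s ∈ A ↔ (s ∈ A' ∨ (C0 ⊆ s ∧ s ⊆ D0))))

instance (A' A : Finset (Finset (Fin 6))) (C0 D0 : Finset (Fin 6)) :
    Decidable (stepCond A' A C0 D0) := by unfold stepCond; infer_instance

theorem Ok.step {P : Finset (Fin n) → Prop} {w : Fin 6 ↪ Fin n} (h : Ok P w)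
    {A' A : Finset (Finset (Fin 6))} {C0 D0 : Finset (Fin 6)} (hc : stepCond A' A C0 D0) :
    Step (ext P w A') (ext P w A) (C0.map w) (D0.map w) := by
  obtain ⟨c1, c2, c3, c4, c5, c6⟩ := hc
  refine ⟨h.ext_down c1, h.ext_down c2, Finset.map_subset_map.2 c3, ?_, ?_⟩
  · intro s hs
    rw [Finset.subset_map_iff] at hs
    obtain ⟨s0, h0, rfl⟩ := hs
    rw [h.ext_iff A' (fun hc => c4 (hc.trans h0)), Finset.map_subset_map]
    exact c5 s0 (Finset.mem_powerset.2 h0)
  · intro s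
    constructor
    · rintro (h1 | ⟨s0, h0, rfl⟩)
      · exact Or.inl (Or.inl h1)
      · rcases (c6 s0).1 h0 with h2 | h2
        · exact Or.inl (Or.inr ⟨s0, h2, rfl⟩)
        · exact Or.inr ⟨Finset.map_subset_map.2 h2.1, Finset.map_subset_map.2 h2.2⟩
    · rintro ((h1 | ⟨s0, h0, rfl⟩) | ⟨h1, h2⟩)
      · exact Or.inl h1
      · exact Or.inr ⟨s0, (c6 s0).2 (Or.inl h0), rfl⟩
      · rw [Finset.subset_map_iff] at h2
        obtain ⟨s0, h0, rfl⟩ := h2
        rw [Finset.map_subset_map] at h1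
        exact Or.inr ⟨s0, (c6 s0).2 (Or.inr ⟨h1, h0⟩), rfl⟩

/-- the faces added by a list of intervals -/
def fam (l : List (Finset (Fin 6) × Finset (Fin 6))) : Finset (Finset (Fin 6)) :=
  Finset.univ.filter (fun s => ∃ p ∈ l, p.1 ⊆ s ∧ s ⊆ p.2)

/-- the list of intervals (in reverse order of addition) -/
def ivl : List (Finset (Fin 6) × Finset (Fin 6)) :=
  [({4,5},{0,1,2,4,5}), ({0,4},{0,1,2,4}), ({2,4},{1,2,3,4}), ({1,4},{1,3,4}),
   ({1,3},{0,1,2,3}), ({2,3},{0,2,3}), ({0,2},{0,1,2,5}), ({1,2},{1,2,5}), ({0,5},{0,1,5})]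

theorem cond_adds : ∀ k : Fin 9, stepCond (fam (ivl.drop (k + 1))) (fam (ivl.drop k))
    (ivl.get k).1 (ivl.get k).2 := by decide +kernel

theorem cond_rem : stepCond Q0 (fam ivl) {1, 2, 5} {0, 1, 2, 4, 5} := by decide +kernel

theorem ivl_card : ∀ k : Fin 9, (ivl.get k).1.card = 2 := by decide +kernel

theorem Ok.glue {P : Finset (Fin n) → Prop} {w : Fin 6 ↪ Fin n} (h : Ok P w)
    (a : Fin n → K) (ha : Function.Injective a) (hn : 3 ≤ n)
    (hP : IsWeaklyRegular (↥(I K P)) ((List.range (n - 2)).map (theta a))) :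
    IsWeaklyRegular (↥(I K (ext P w Q0))) ((List.range (n - 2)).map (theta a)) := by
  have h1 : ∀ k : ℕ, k ≤ 9 → IsWeaklyRegular (↥(I K (ext P w (fam (ivl.drop (9 - k))))))
      ((List.range (n - 2)).map (theta a)) := by
    intro k
    induction k with
    | zero =>
      intro _
      have : ext P w (fam (ivl.drop (9 - 0))) = P := by
        funext s
        simp [ext, fam, ivl]
      rw [this]
      exact hP
    | succ k ih =>
      intro hk
      have ih := ih (by omega)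
      have hs := h.step (cond_adds ⟨8 - k, by omega⟩)
      have e1 : (⟨8 - k, by omega⟩ : Fin 9).val + 1 = 9 - k := by
        change 8 - k + 1 = 9 - k
        omega
      have e2 : (⟨8 - k, by omega⟩ : Fin 9).val = 9 - (k + 1) := by
        change 8 - k = 9 - (k + 1)
        omega
      rw [e1, e2] at hs
      refine hs.add _ ?_ ih
      apply wr_theta _ a ha
      rw [Finset.card_map, ivl_card]
      omega
  have h2 := h1 9 le_rfl
  have e : (List.range (n - 2)).map (theta a) =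
      (List.range (n - 3)).map (theta a) ++ [theta a (n - 3)] := by
    have : n - 2 = n - 3 + 1 := by omega
    rw [this, List.range_succ, List.map_append]
    rfl
  rw [e] at h2 ⊢
  refine (h.step cond_rem).remove _ _ ?_ h2
  apply wr_theta _ a ha
  rw [Finset.card_map]
  have : ({1, 2, 5} : Finset (Fin 6)).card = 3 := by decide
  omega

end Pool.Agent.H135R3.SD2
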