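import Mathlib
import Pool.Agent.H135R3.SDCopy

/-! The relative complex `Q0` has no partition into intervals `[C, D]` with `|C| = 2`, `C ≠ D`. -/

set_option autoImplicit false

namespace Pool.Agent.H135R3.SD2

/-- masks of the faces of `Q0` in a good order -/
def qm : List ℕ := [48, 51, 33, 53, 17, 23, 18, 20, 30, 6, 12, 5, 15, 10, 11, 35, 22, 26, 14, 13,
  50, 7, 28, 37, 49, 19, 21, 52]

/-- masks of the pairs -/
def pairs : List ℕ := [3, 5, 9, 17, 33, 6, 10, 18, 34, 12, 20, 36, 24, 40, 48]

def insd (F : ℕ) (o : ℕ × ℕ) : Bool := (o.1 &&& F == o.1) && (F &&& o.2 == F)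

def confl (o p : ℕ × ℕ) : Bool := (o.1 == p.1) || qm.any (fun F => insd F o && insd F p)

def opts (F : ℕ) : List (ℕ × ℕ) :=
  (pairs.filter (fun C => C &&& F == C)).flatMap
    (fun C => (qm.filter (fun D => (F &&& D == F) && !(C == D))).map (fun D => (C, D)))

def refute : List ℕ → List (ℕ × ℕ) → Bool
  | [], _ => false
  | F :: rest, ch =>
    if ch.any (insd F) then refute rest ch
    else (opts F).all (fun o => ch.any (confl o) || refute rest (o :: ch))

theorem refute_true : refute qm [] = true := by decide +kernel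

theorem refute_sound (f : ℕ → ℕ × ℕ) (ha : ∀ F ∈ qm, f F ∈ opts F)
    (hb : ∀ F ∈ qm, ∀ F' ∈ qm, insd F' (f F) = true → f F' = f F)
    (hc : ∀ F ∈ qm, ∀ F' ∈ qm, (f F).1 = (f F').1 → f F = f F') :
    ∀ (items : List ℕ) (ch : List (ℕ × ℕ)), (∀ F ∈ items, F ∈ qm) →
      (∀ o ∈ ch, ∃ F ∈ qm, f F = o) → refute items ch = true → False := by
  intro items
  induction items with
  | nil => intro ch _ _ h; simp [refute] at h
  | cons F rest ih =>
    intro ch hi hch h
    rw [refute] at h
    split_ifs at h with h1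
    · exact ih ch (fun G hG => hi G (List.mem_cons_of_mem _ hG)) hch h
    · rw [List.all_eq_true] at h
      have hF := hi F List.mem_cons_self
      have h2 := h _ (ha F hF)
      rw [Bool.or_eq_true] at h2
      rcases h2 with h2 | h2
      · rw [List.any_eq_true] at h2
        obtain ⟨o, ho, hco⟩ := h2
        obtain ⟨G, hG, rfl⟩ := hch o ho
        have hne : f F = f G := by
          rw [confl, Bool.or_eq_true] at hco
          rcases hco with h3 | h3
          · exact hc F hF G hG (by simpa using h3)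
          · rw [List.any_eq_true] at h3
            obtain ⟨H, hH, h4⟩ := h3
            rw [Bool.and_eq_true] at h4
            rw [← hb F hF H hH h4.1, ← hb G hG H hH h4.2]
        apply h1
        rw [List.any_eq_true]
        refine ⟨f G, ho, ?_⟩
        rw [← hne]
        -- F is inside its own interval
        have h5 := ha F hF
        rw [opts, List.mem_flatMap] at h5
        obtain ⟨C, hC, h6⟩ := h5
        rw [List.mem_map] at h6
        obtain ⟨D, hD, h7⟩ := h6
        rw [List.mem_filter] at hC hD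
        rw [insd, ← h7]
        rw [Bool.and_eq_true] at hD ⊢
        exact ⟨hC.2, hD.2.1⟩
      · refine ih _ (fun G hG => hi G (List.mem_cons_of_mem _ hG)) ?_ h2
        intro o ho
        rw [List.mem_cons] at ho
        rcases ho with rfl | ho
        · exact ⟨F, hF, rfl⟩
        · exact hch o ho

/-- mask of a subset of `Fin 6` -/
def mk (s : Finset (Fin 6)) : ℕ := ∑ i ∈ s, 2 ^ (i : ℕ)

/-- subset of a mask -/
def sm (F : ℕ) : Finset (Fin 6) := Finset.univ.filter (fun i => F.testBit i = true)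

theorem mk_sub : ∀ s t : Finset (Fin 6), (s ⊆ t ↔ mk s &&& mk t = mk s) := by decide +kernel

theorem sm_mk : ∀ s : Finset (Fin 6), sm (mk s) = s := by decide +kernel

theorem mk_inj {s t : Finset (Fin 6)} (h : mk s = mk t) : s = t := by
  rw [← sm_mk s, ← sm_mk t, h]

theorem mem_qm : ∀ s : Finset (Fin 6), (s ∈ Q0 ↔ mk s ∈ qm) := by decide +kernel

theorem qm_mk_sm : ∀ F ∈ qm, mk (sm F) = F := by decide +kernel

theorem card_pairs : ∀ s : Finset (Fin 6), s.card = 2 → mk s ∈ pairs := by decide +kernel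

/-- No interval partition of the relative complex. -/
theorem local_no (c d : Finset (Fin 6) → Finset (Fin 6))
    (h1 : ∀ s ∈ Q0, c s ⊆ s ∧ s ⊆ d s ∧ d s ∈ Q0 ∧ (c s).card = 2 ∧ c s ≠ d s)
    (h2 : ∀ s ∈ Q0, ∀ t ∈ Q0, c s ⊆ t → t ⊆ d s → c t = c s ∧ d t = d s)
    (h3 : ∀ s ∈ Q0, ∀ t ∈ Q0, c s = c t → d s = d t) : False := by
  have hQ : ∀ F ∈ qm, sm F ∈ Q0 := fun F hF => by
    rw [mem_qm, qm_mk_sm F hF]
    exact hF
  refine refute_sound (fun F => (mk (c (sm F)), mk (d (sm F)))) ?_ ?_ ?_ qm [] (fun F h => h)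
    (fun o ho => absurd ho List.not_mem_nil) refute_true
  · intro F hF
    obtain ⟨a1, a2, a3, a4, a5⟩ := h1 _ (hQ F hF)
    rw [opts, List.mem_flatMap]
    refine ⟨mk (c (sm F)), ?_, ?_⟩
    · rw [List.mem_filter]
      refine ⟨card_pairs _ a4, ?_⟩
      have := (mk_sub _ _).1 a1
      rw [qm_mk_sm F hF] at this
      simpa using this
    · rw [List.mem_map]
      refine ⟨mk (d (sm F)), ?_, rfl⟩
      rw [List.mem_filter, Bool.and_eq_true]
      refine ⟨(mem_qm _).1 a3, ?_, ?_⟩
      · have := (mk_sub _ _).1 a2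
        rw [qm_mk_sm F hF] at this
        simpa using this
      · rw [Bool.not_eq_true', beq_eq_false_iff_ne]
        exact fun h => a5 (mk_inj h)
  · intro F hF F' hF' hin
    rw [insd, Bool.and_eq_true, beq_iff_eq, beq_iff_eq] at hin
    have e : F' = mk (sm F') := (qm_mk_sm F' hF').symm
    rw [e] at hin
    have b1 : c (sm F) ⊆ sm F' := (mk_sub _ _).2 hin.1
    have b2 : sm F' ⊆ d (sm F) := (mk_sub _ _).2 hin.2
    obtain ⟨e1, e2⟩ := h2 _ (hQ F hF) _ (hQ F' hF') b1 b2
    simp only [e1, e2]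
  · intro F hF F' hF' he
    have e1 : c (sm F) = c (sm F') := mk_inj he
    have e2 := h3 _ (hQ F hF) _ (hQ F' hF') e1
    simp only [e1, e2]

end Pool.Agent.H135R3.SD2
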