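import Mathlib
import Pool.Agent.H135R3.SDLocal

/-! The design: 31 copies of the model on 30 vertices, and a cone over the graph of path edges. -/

set_option autoImplicit false

namespace Pool.Agent.H135R3.SD2

open RingTheory.Sequence MvPolynomial

/-- base tuple -/
def bt : Fin 6 → ℕ := ![0, 12, 20, 15, 11, 24]

/-- the extra tuple -/
def et : Fin 6 → ℕ := ![28, 16, 0, 2, 14, 12]

/-- position of vertex `i` of copy `j` -/
def W (j : Fin 31) (i : Fin 6) : Fin 31 :=
  Fin.ofNat 31 (if j.1 < 30 then (bt i + j.1) % 30 else et i)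

theorem W_inj : ∀ j : Fin 31, ∀ i i' : Fin 6, W j i = W j i' → i = i' := by decide +kernel

/-- the embeddings -/
def w (j : Fin 31) : Fin 6 ↪ Fin 31 := ⟨W j, fun i i' h => W_inj j i i' h⟩

theorem W_ne : ∀ j : Fin 31, ∀ i : Fin 6, W j i ≠ 30 := by decide +kernel

def EP : List (Fin 6 × Fin 6) := [(0,2),(1,2),(1,3),(2,3),(0,4),(1,4),(2,4),(0,5),(4,5)]

def TP : List (Fin 6 × Fin 6) := [(0,1),(0,3),(3,4),(1,5),(2,5)]

def code (x : Fin 31 × (Fin 6 × Fin 6)) : ℕ := 2 ^ (W x.1 x.2.1 : ℕ) + 2 ^ (W x.1 x.2.2 : ℕ)

theorem nodupE : (((List.finRange 31).product EP).map code).Nodup := by decide +kernel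

theorem disjET : ((List.finRange 31).product EP).all (fun x =>
    ((List.finRange 31).product TP).all (fun y => !(code x == code y))) = true := by
  decide +kernel

/-- code of a subset of `Fin 31` -/
def cd (s : Finset (Fin 31)) : ℕ := ∑ v ∈ s, 2 ^ (v : ℕ)

theorem E0_EP : ∀ e ∈ E0, ∃ p ∈ EP, p.1 ≠ p.2 ∧ e = {p.1, p.2} := by decide +kernel

theorem T0_TP : ∀ e ∈ T0, ∃ p ∈ TP, p.1 ≠ p.2 ∧ e = {p.1, p.2} := by decide +kernel

theorem cd_map (j : Fin 31) (p : Fin 6 × Fin 6) (hp : p.1 ≠ p.2) :
    cd (({p.1, p.2} : Finset (Fin 6)).map (w j)) = code (j, p) := by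
  rw [cd, Finset.sum_map, Finset.sum_pair hp]
  rfl

theorem memE (j : Fin 31) {p : Fin 6 × Fin 6} (hp : p ∈ EP) :
    (j, p) ∈ (List.finRange 31).product EP := List.mem_product.2 ⟨List.mem_finRange j, hp⟩

theorem memT (j : Fin 31) {p : Fin 6 × Fin 6} (hp : p ∈ TP) :
    (j, p) ∈ (List.finRange 31).product TP := List.mem_product.2 ⟨List.mem_finRange j, hp⟩

theorem E_E {j j' : Fin 31} {e e' : Finset (Fin 6)} (he : e ∈ E0) (he' : e' ∈ E0)
    (h : e.map (w j) = e'.map (w j')) : j = j' := by
  obtain ⟨p, hp, hne, rfl⟩ := E0_EP e he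
  obtain ⟨p', hp', hne', rfl⟩ := E0_EP e' he'
  have h1 := congrArg cd h
  rw [cd_map j p hne, cd_map j' p' hne'] at h1
  have := List.inj_on_of_nodup_map nodupE (memE j hp) (memE j' hp') h1
  exact congrArg Prod.fst this

theorem E_T {j j' : Fin 31} {e t : Finset (Fin 6)} (he : e ∈ E0) (ht : t ∈ T0) :
    e.map (w j) ≠ t.map (w j') := by
  intro h
  obtain ⟨p, hp, hne, rfl⟩ := E0_EP e he
  obtain ⟨p', hp', hne', rfl⟩ := T0_TP t ht
  have h1 := congrArg cd h
  rw [cd_map j p hne, cd_map j' p' hne'] at h1
  have h2 := disjET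
  rw [List.all_eq_true] at h2
  have h3 := h2 _ (memE j hp)
  rw [List.all_eq_true] at h3
  have h4 := h3 _ (memT j' hp')
  rw [h1] at h4
  simp at h4

/-- subsets of size 2 of the faces of `Q0` -/
theorem pair_cases : ∀ s ∈ Q0, ∀ e ∈ s.powerset, e.card = 2 → e ∈ E0 ∨ e ∈ T0 := by
  decide +kernel

theorem E0_card : ∀ e ∈ E0, e.card = 2 := by decide +kernel

theorem T0_card : ∀ e ∈ T0, e.card = 2 := by decide +kernel

theorem Q0_E0 : ∀ s ∈ Q0, ∃ e ∈ E0, e ⊆ s := by decide +kernel

theorem E_Q {j j' : Fin 31} {e s : Finset (Fin 6)} (he : e ∈ E0) (hs : s ∈ Q0)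
    (h : e.map (w j) ⊆ s.map (w j')) : j = j' := by
  rw [Finset.subset_map_iff] at h
  obtain ⟨e', he', h1⟩ := h
  have hc : e'.card = 2 := by
    have := congrArg Finset.card h1
    rw [Finset.card_map, Finset.card_map, E0_card e he] at this
    exact this.symm
  rcases pair_cases s hs e' (Finset.mem_powerset.2 he') hc with h2 | h2
  · exact E_E he h2 h1
  · exact absurd h1 (E_T he h2)

section cone

variable {n : ℕ} (a0 : Fin n)

/-- cone over the faces in a list -/
def cone (es : List (Finset (Fin n))) : Finset (Fin n) → Prop := fun s => s.erase a0 ∈ es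

/-- well-formed lists of faces -/
def Good : List (Finset (Fin n)) → Prop
  | [] => True
  | e :: es => Good es ∧ a0 ∉ e ∧ e.card ≤ 2 ∧ ∀ s, s ⊆ e → s ≠ e → s ∈ es

theorem Good.closed {es : List (Finset (Fin n))} (h : Good a0 es) :
    ∀ e ∈ es, ∀ s, s ⊆ e → s ∈ es := by
  induction es with
  | nil => intro e he; exact absurd he List.not_mem_nil
  | cons x es ih =>
    obtain ⟨h1, h2, h3, h4⟩ := h
    intro e he s hs
    rw [List.mem_cons] at he ⊢
    rcases he with rfl | he
    · by_cases hse : s = e
      · exact Or.inl hse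
      · exact Or.inr (h4 s hs hse)
    · exact Or.inr (ih h1 e he s hs)

theorem Good.not_mem {es : List (Finset (Fin n))} (h : Good a0 es) : ∀ e ∈ es, a0 ∉ e := by
  induction es with
  | nil => intro e he; exact absurd he List.not_mem_nil
  | cons x es ih =>
    obtain ⟨h1, h2, h3, h4⟩ := h
    intro e he
    rw [List.mem_cons] at he
    rcases he with rfl | he
    · exact h2
    · exact ih h1 e he

theorem Good.card {es : List (Finset (Fin n))} (h : Good a0 es) : ∀ e ∈ es, e.card ≤ 2 := by
  induction es with
  | nil => intro e he; exact absurd he List.not_mem_nil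
  | cons x es ih =>
    obtain ⟨h1, h2, h3, h4⟩ := h
    intro e he
    rw [List.mem_cons] at he
    rcases he with rfl | he
    · exact h3
    · exact ih h1 e he

theorem Good.down {es : List (Finset (Fin n))} (h : Good a0 es) : Down (cone a0 es) := by
  intro s t hst ht
  exact h.closed a0 _ ht _ (Finset.erase_subset_erase _ hst)

theorem Good.append {L1 L2 : List (Finset (Fin n))} (h2 : Good a0 L2)
    (h1 : ∀ e ∈ L1, a0 ∉ e ∧ e.card ≤ 2 ∧ ∀ s, s ⊆ e → s ≠ e → s ∈ L2) : Good a0 (L1 ++ L2) := by
  induction L1 with
  | nil => exact h2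
  | cons x L1 ih =>
    obtain ⟨a1, a2, a3⟩ := h1 x List.mem_cons_self
    exact ⟨ih (fun e he => h1 e (List.mem_cons_of_mem _ he)), a1, a2,
      fun s hs hne => List.mem_append_right _ (a3 s hs hne)⟩

variable {K : Type} [Field K]

theorem Good.wr {es : List (Finset (Fin n))} (h : Good a0 es) (a : Fin n → K)
    (ha : Function.Injective a) (m : ℕ) (hm : m + 2 ≤ n) :
    IsWeaklyRegular (↥(I K (cone a0 es))) ((List.range m).map (theta a)) := by
  induction es with
  | nil =>
    have h0 : I K (cone a0 []) = ⊥ := by
      rw [I, eq_bot_iff, Ideal.span_le]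
      rintro _ ⟨b, hb, rfl⟩
      exact absurd hb List.not_mem_nil
    have : Subsingleton (↥(I K (cone a0 []))) := by
      rw [h0]
      infer_instance
    constructor
    intro i hi x y _
    have : Subsingleton (↥(I K (cone a0 [])) ⧸ (Ideal.ofList (((List.range m).map
      (theta a)).take i) • ⊤ : Submodule (MvPolynomial (Fin n) K) ↥(I K (cone a0 [])))) :=
      inferInstance
    exact Subsingleton.elim x y
  | cons e es ih =>
    have hg := h
    obtain ⟨h1, h2, h3, h4⟩ := h
    have ih := ih h1
    by_cases hmem : e ∈ es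
    · have : cone a0 (e :: es) = cone a0 es := by
        funext s
        apply propext
        unfold cone
        rw [List.mem_cons]
        constructor
        · rintro (h5 | h5)
          · rw [h5]; exact hmem
          · exact h5
        · exact Or.inr
      rw [this]
      exact ih
    · have hs : Step (cone a0 es) (cone a0 (e :: es)) e (insert a0 e) := by
        refine ⟨h1.down, hg.down, Finset.subset_insert _ _, ?_, ?_⟩
        · intro s hs
          have h5 : s.erase a0 ⊆ e := by
            intro v hv
            rw [Finset.mem_erase] at hv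
            have := hs hv.2
            rw [Finset.mem_insert] at this
            exact this.resolve_left hv.1
          constructor
          · intro h6 h7
            apply hmem
            have : s.erase a0 = e := by
              apply Finset.Subset.antisymm h5
              intro v hv
              rw [Finset.mem_erase]
              exact ⟨fun hc => h2 (hc ▸ hv), h7 hv⟩
            rw [← this]
            exact h6
          · intro h6
            apply h4 _ h5
            intro h7
            apply h6
            intro v hv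
            rw [← h7] at hv
            exact Finset.mem_of_mem_erase hv
        · intro s
          unfold cone
          rw [List.mem_cons]
          constructor
          · rintro (h5 | h5)
            · right
              constructor
              · intro v hv
                rw [← h5] at hv
                exact Finset.mem_of_mem_erase hv
              · intro v hv
                rw [Finset.mem_insert]
                by_cases hva : v = a0
                · exact Or.inl hva
                · right
                  rw [← h5]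
                  exact Finset.mem_erase.2 ⟨hva, hv⟩
            · exact Or.inl h5
          · rintro (h5 | ⟨h5, h6⟩)
            · exact Or.inr h5
            · left
              ext v
              rw [Finset.mem_erase]
              constructor
              · rintro ⟨hv1, hv2⟩
                have := h6 hv2
                rw [Finset.mem_insert] at this
                exact this.resolve_left hv1
              · intro hv
                exact ⟨fun hc => h2 (hc ▸ hv), h5 hv⟩
      exact hs.add _ (wr_theta _ a ha m (by omega)) ih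

end cone

/-- edges of the graph -/
def edgesL : List (Finset (Fin 31)) :=
  (List.finRange 31).flatMap (fun j => TP.map (fun p => ({p.1, p.2} : Finset (Fin 6)).map (w j)))

def singlesL : List (Finset (Fin 31)) :=
  ((List.finRange 31).filter (fun v => v ≠ 30)).map (fun v => {v})

def es : List (Finset (Fin 31)) := edgesL ++ (singlesL ++ [∅])

theorem TP_ne : ∀ p ∈ TP, p.1 ≠ p.2 := by decide +kernel

theorem TP_T0 : ∀ p ∈ TP, ({p.1, p.2} : Finset (Fin 6)) ∈ T0 := by decide +kernel

theorem mem_edgesL (s : Finset (Fin 31)) (hs : s ∈ edgesL) : ∃ j, ∃ t ∈ T0, s = t.map (w j) := by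
  rw [edgesL, List.mem_flatMap] at hs
  obtain ⟨j, _, h⟩ := hs
  rw [List.mem_map] at h
  obtain ⟨p, hp, rfl⟩ := h
  exact ⟨j, _, TP_T0 p hp, rfl⟩

theorem T_mem (j : Fin 31) {t : Finset (Fin 6)} (ht : t ∈ T0) : t.map (w j) ∈ es := by
  obtain ⟨p, hp, _, rfl⟩ := T0_TP t ht
  apply List.mem_append_left
  rw [edgesL, List.mem_flatMap]
  exact ⟨j, List.mem_finRange j, List.mem_map.2 ⟨p, hp, rfl⟩⟩

theorem apex_not_mem (j : Fin 31) (s : Finset (Fin 6)) : (30 : Fin 31) ∉ s.map (w j) := by
  rw [Finset.mem_map]
  rintro ⟨i, _, hi⟩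
  exact W_ne j i hi

theorem good_es : Good (30 : Fin 31) es := by
  unfold es
  apply Good.append
  · apply Good.append
    · exact ⟨trivial, by simp, by simp, fun s hs hne => absurd (Finset.subset_empty.1 hs) hne⟩
    · intro e he
      rw [singlesL, List.mem_map] at he
      obtain ⟨v, hv, rfl⟩ := he
      rw [List.mem_filter] at hv
      have hv2 : v ≠ 30 := by simpa using hv.2
      refine ⟨by simpa using hv2.symm, by simp, ?_⟩
      intro s hs hne
      rw [List.mem_singleton]
      exact (Finset.subset_singleton_iff.1 hs).resolve_right hne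
  · intro e he
    obtain ⟨j, t, ht, rfl⟩ := mem_edgesL e he
    refine ⟨apex_not_mem j t, by rw [Finset.card_map, T0_card t ht], ?_⟩
    intro s hs hne
    have h30 : (30 : Fin 31) ∉ s := fun h => apex_not_mem j t (hs h)
    have hcard : s.card ≤ 1 := by
      have := Finset.card_lt_card (Finset.ssubset_iff_subset_ne.2 ⟨hs, hne⟩)
      rw [Finset.card_map, T0_card t ht] at this
      omega
    rw [Finset.card_le_one_iff_subset_singleton] at hcard
    obtain ⟨v, hv⟩ := hcard
    rcases Finset.subset_singleton_iff.1 hv with h | h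
    · apply List.mem_append_right
      simp [h]
    · apply List.mem_append_left
      rw [singlesL, List.mem_map]
      refine ⟨v, ?_, h.symm⟩
      rw [List.mem_filter]
      refine ⟨List.mem_finRange v, ?_⟩
      have : v ≠ 30 := by
        intro hc
        apply h30
        rw [h, hc]
        simp
      simpa using this

/-- the family after gluing the first `k` copies -/
def Fam (k : ℕ) : Finset (Fin 31) → Prop := fun s =>
  cone (30 : Fin 31) es s ∨ ∃ j : Fin 31, j.1 < k ∧ ∃ s0 ∈ Q0, s = s0.map (w j)

theorem Fam_succ (k : ℕ) (hk : k < 31) : Fam (k + 1) = ext (Fam k) (w ⟨k, hk⟩) Q0 := by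
  funext s
  apply propext
  unfold Fam ext
  constructor
  · rintro (h | ⟨j, hj, s0, h0, rfl⟩)
    · exact Or.inl (Or.inl h)
    · by_cases hjk : j.1 < k
      · exact Or.inl (Or.inr ⟨j, hjk, s0, h0, rfl⟩)
      · right
        have : j = ⟨k, hk⟩ := Fin.ext (by change j.1 = k; omega)
        rw [this]
        exact ⟨s0, h0, rfl⟩
  · rintro ((h | ⟨j, hj, s0, h0, rfl⟩) | ⟨s0, h0, rfl⟩)
    · exact Or.inl h
    · exact Or.inr ⟨j, by omega, s0, h0, rfl⟩
    · exact Or.inr ⟨⟨k, hk⟩, by change k < k + 1; omega, s0, h0, rfl⟩

theorem cone_no_E (j : Fin 31) {e : Finset (Fin 6)} (he : e ∈ E0) :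
    ¬ cone (30 : Fin 31) es (e.map (w j)) := by
  intro h
  unfold cone at h
  rw [Finset.erase_eq_of_notMem (apex_not_mem j e)] at h
  have hc : (e.map (w j)).card = 2 := by rw [Finset.card_map, E0_card e he]
  rw [es, List.mem_append, List.mem_append] at h
  rcases h with h | h | h
  · obtain ⟨j', t, ht, h1⟩ := mem_edgesL _ h
    exact E_T he ht h1
  · rw [singlesL, List.mem_map] at h
    obtain ⟨v, _, h1⟩ := h
    rw [← h1, Finset.card_singleton] at hc
    omega
  · rw [List.mem_singleton] at h
    rw [h, Finset.card_empty] at hc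
    omega

theorem Fam_down_ok (k : ℕ) (hk : k ≤ 31) : Down (Fam k) ∧
    ∀ h : k < 31, Ok (Fam k) (w ⟨k, h⟩) := by
  have key : ∀ k : ℕ, Down (Fam k) → ∀ h : k < 31, Ok (Fam k) (w ⟨k, h⟩) := by
    intro k hd h
    refine ⟨hd, ?_, ?_⟩
    · intro t ht
      left
      unfold cone
      rw [Finset.erase_eq_of_notMem (apex_not_mem _ t)]
      exact T_mem _ ht
    · rintro e he (h1 | ⟨j, hj, s0, h0, h1⟩)
      · exact cone_no_E _ he h1
      · have := E_Q he h0 h1.le
        rw [← this] at hj
        exact lt_irrefl _ hj
  induction k with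
  | zero =>
    have hd : Down (Fam 0) := by
      rintro s t hst (h | ⟨j, hj, _⟩)
      · exact Or.inl (good_es.down _ _ _ hst h)
      · exact absurd hj (Nat.not_lt_zero _)
    exact ⟨hd, key 0 hd⟩
  | succ k ih =>
    obtain ⟨h1, h2⟩ := ih (by omega)
    have hd : Down (Fam (k + 1)) := by
      rw [Fam_succ k (by omega)]
      exact (h2 (by omega)).ext_down cond_rem.1
    exact ⟨hd, key _ hd⟩

theorem Fam_wr {K : Type} [Field K] (a : Fin 31 → K) (ha : Function.Injective a) (k : ℕ)
    (hk : k ≤ 31) :
    IsWeaklyRegular (↥(I K (Fam k))) ((List.range 29).map (theta a)) := by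
  induction k with
  | zero =>
    have : Fam 0 = cone (30 : Fin 31) es := by
      funext s
      apply propext
      unfold Fam
      simp
    rw [this]
    exact good_es.wr _ a ha 29 (by norm_num)
  | succ k ih =>
    rw [Fam_succ k (by omega)]
    exact ((Fam_down_ok k (by omega)).2 (by omega)).glue a ha (by norm_num) (ih (by omega))

end Pool.Agent.H135R3.SD2
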