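import Mathlib
import Pool.Agent.H135R3.SDDesign

/-! Counting: the family has no interval partition with bottoms of size at most two. -/

set_option autoImplicit false

namespace Pool.Agent.H135R3.SD2

open Finset

/-- weights -/
def wt (c : ℕ) : ℤ := if c = 2 then 1 else if c = 3 then -1 else if c = 4 then 1 else 0

theorem sum_Icc {n : ℕ} (f : ℕ → ℤ) (Cs D : Finset (Fin n)) (h : Cs ⊆ D) :
    ∑ s ∈ Finset.Icc Cs D, f s.card =
      ∑ m ∈ range ((D \ Cs).card + 1), ((D \ Cs).card.choose m : ℤ) * f (Cs.card + m) := by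
  rw [Finset.Icc_eq_image_powerset h, Finset.sum_image]
  · have h1 : ∀ x ∈ (D \ Cs).powerset, f (Cs ∪ x).card = f (Cs.card + x.card) := by
      intro x hx
      rw [Finset.mem_powerset] at hx
      rw [Finset.card_union_of_disjoint]
      exact (Finset.disjoint_sdiff).mono_right hx
    rw [Finset.sum_congr rfl h1]
    rw [Finset.sum_powerset_apply_card (fun m => f (Cs.card + m))]
    refine Finset.sum_congr rfl fun m _ => ?_
    rw [nsmul_eq_mul]
  · intro x hx y hy hxy
    have hx' : x ⊆ D \ Cs := Finset.mem_powerset.1 (Finset.mem_coe.1 hx)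
    have hy' : y ⊆ D \ Cs := Finset.mem_powerset.1 (Finset.mem_coe.1 hy)
    have hxy : Cs ∪ x = Cs ∪ y := hxy
    have d1 : Disjoint Cs x := (Finset.disjoint_sdiff).mono_right hx'
    have d2 : Disjoint Cs y := (Finset.disjoint_sdiff).mono_right hy'
    have e1 : (Cs ∪ x) \ Cs = x := Finset.union_sdiff_cancel_left d1
    have e2 : (Cs ∪ y) \ Cs = y := Finset.union_sdiff_cancel_left d2
    rw [← e1, ← e2, hxy]

/-- value on an interval depending on sizes only -/
def gv (c d : ℕ) : ℤ := ∑ m ∈ range (d + 1), (d.choose m : ℤ) * wt (c + m)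

theorem gv_nonneg : ∀ c ≤ 2, ∀ d ≤ 4, c + d ≤ 4 → 0 ≤ gv c d := by decide +kernel

theorem gv_pos' : ∀ c ∈ range 3, ∀ d ∈ range 5,
    (c + d ≤ 4 ∧ 2 ≤ c + d ∧ (c ≠ 2 ∨ d = 0)) → 1 ≤ gv c d := by
  decide +kernel

theorem gv_pos (c : ℕ) (hc : c ≤ 2) (d : ℕ) (hd : d ≤ 4) (h1 : c + d ≤ 4) (h2 : 2 ≤ c + d)
    (h3 : c ≠ 2 ∨ d = 0) : 1 ≤ gv c d :=
  gv_pos' c (Finset.mem_range.2 (by omega)) d (Finset.mem_range.2 (by omega)) ⟨h1, h2, h3⟩

theorem sdiff_card {n : ℕ} {Cs D : Finset (Fin n)} (h : Cs ⊆ D) :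
    Cs.card + (D \ Cs).card = D.card := by
  rw [Finset.card_sdiff_of_subset h]
  have := Finset.card_le_card h
  omega

theorem Q0_card : ∀ s ∈ Q0, 2 ≤ s.card ∧ s.card ≤ 4 := by decide +kernel

theorem Q0_sum : ∑ s ∈ Q0, wt s.card = 0 := by decide +kernel

theorem Fam_card {s : Finset (Fin 31)} {k : ℕ} (h : Fam k s) : s.card ≤ 4 := by
  rcases h with h | ⟨j, _, s0, h0, rfl⟩
  · have h1 := good_es.card _ _ h
    have h2 := Finset.pred_card_le_card_erase (s := s) (a := 30)
    omega
  · rw [Finset.card_map]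
    exact (Q0_card s0 h0).2

open Classical in
/-- the faces as a finset -/
noncomputable def Gam (k : ℕ) : Finset (Finset (Fin 31)) := Finset.univ.filter (Fam k)

theorem mem_Gam {k : ℕ} {s : Finset (Fin 31)} : s ∈ Gam k ↔ Fam k s := by
  simp [Gam]

theorem sum_zero : ∑ s ∈ Gam 0, wt s.card ≤ 30 := by
  classical
  have h1 : Gam 0 = es.toFinset ∪ es.toFinset.image (insert 30) := by
    ext s
    rw [mem_Gam, Finset.mem_union, List.mem_toFinset, Finset.mem_image]
    unfold Fam cone
    constructor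
    · rintro (h | ⟨j, hj, _⟩)
      · by_cases h30 : (30 : Fin 31) ∈ s
        · right
          exact ⟨s.erase 30, List.mem_toFinset.2 h, Finset.insert_erase h30⟩
        · left
          rwa [Finset.erase_eq_of_notMem h30] at h
      · exact absurd hj (Nat.not_lt_zero _)
    · rintro (h | ⟨e, he, rfl⟩)
      · left
        rw [Finset.erase_eq_of_notMem (good_es.not_mem _ _ h)]
        exact h
      · left
        rw [List.mem_toFinset] at he
        rw [Finset.erase_insert (good_es.not_mem _ _ he)]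
        exact he
  have hdisj : Disjoint es.toFinset (es.toFinset.image (insert 30)) := by
    rw [Finset.disjoint_left]
    intro s hs hs'
    rw [Finset.mem_image] at hs'
    obtain ⟨e, _, rfl⟩ := hs'
    exact good_es.not_mem _ _ (List.mem_toFinset.1 hs) (Finset.mem_insert_self _ _)
  rw [h1, Finset.sum_union hdisj, Finset.sum_image, ← Finset.sum_add_distrib]
  · have h2 : ∀ e ∈ es.toFinset, wt e.card + wt (insert (30 : Fin 31) e).card =
        if e.card = 1 then 1 else 0 := by
      intro e he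
      rw [List.mem_toFinset] at he
      rw [Finset.card_insert_of_notMem (good_es.not_mem _ _ he)]
      have := good_es.card _ _ he
      interval_cases h : e.card <;> simp [wt]
    rw [Finset.sum_congr rfl h2, Finset.sum_boole]
    have h3 : es.toFinset.filter (fun e => e.card = 1) ⊆
        (Finset.univ.erase (30 : Fin 31)).image (fun v => ({v} : Finset (Fin 31))) := by
      intro e he
      rw [Finset.mem_filter, List.mem_toFinset, Finset.card_eq_one] at he
      obtain ⟨he, v, rfl⟩ := he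
      rw [Finset.mem_image]
      refine ⟨v, ?_, rfl⟩
      rw [Finset.mem_erase]
      refine ⟨?_, Finset.mem_univ _⟩
      rintro rfl
      exact good_es.not_mem _ _ he (Finset.mem_singleton_self _)
    have h4 := (Finset.card_le_card h3).trans Finset.card_image_le
    rw [Finset.card_erase_of_mem (Finset.mem_univ _), Finset.card_univ, Fintype.card_fin] at h4
    exact_mod_cast h4
  · intro x hx y hy hxy
    have hx' : x ∈ es := by simpa using hx
    have hy' : y ∈ es := by simpa using hy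
    have hxy : insert (30 : Fin 31) x = insert 30 y := hxy
    rw [← Finset.erase_insert (good_es.not_mem _ _ hx'), hxy,
      Finset.erase_insert (good_es.not_mem _ _ hy')]

theorem sum_succ (k : ℕ) (hk : k < 31) :
    ∑ s ∈ Gam (k + 1), wt s.card = ∑ s ∈ Gam k, wt s.card := by
  classical
  have hok := (Fam_down_ok k hk.le).2 hk
  have h1 : Gam (k + 1) = Gam k ∪ Q0.image (fun s0 => s0.map (w ⟨k, hk⟩)) := by
    ext s
    rw [mem_Gam, Fam_succ k hk, Finset.mem_union, mem_Gam, Finset.mem_image]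
    unfold ext
    constructor
    · rintro (h | ⟨s0, h0, rfl⟩)
      · exact Or.inl h
      · exact Or.inr ⟨s0, h0, rfl⟩
    · rintro (h | ⟨s0, h0, rfl⟩)
      · exact Or.inl h
      · exact Or.inr ⟨s0, h0, rfl⟩
  have hdisj : Disjoint (Gam k) (Q0.image (fun s0 => s0.map (w ⟨k, hk⟩))) := by
    rw [Finset.disjoint_left]
    intro s hs hs'
    rw [Finset.mem_image] at hs'
    obtain ⟨s0, h0, rfl⟩ := hs'
    obtain ⟨e, he, hes⟩ := Q0_E0 s0 h0
    exact hok.hE e he (hok.down _ _ (Finset.map_subset_map.2 hes) (mem_Gam.1 hs))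
  rw [h1, Finset.sum_union hdisj, Finset.sum_image]
  · have : ∑ x ∈ Q0, wt (x.map (w ⟨k, hk⟩)).card = 0 := by
      rw [← Q0_sum]
      exact Finset.sum_congr rfl fun x _ => by rw [Finset.card_map]
    rw [this, add_zero]
  · intro x _ y _ hxy
    exact Finset.map_injective _ hxy

theorem sum_le (k : ℕ) (hk : k ≤ 31) : ∑ s ∈ Gam k, wt s.card ≤ 30 := by
  induction k with
  | zero => exact sum_zero
  | succ k ih => rw [sum_succ k (by omega)]; exact ih (by omega)

/-- faces of the family above an `E`-edge of copy `j` belong to copy `j`. -/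
theorem above {j : Fin 31} {s0 : Finset (Fin 6)} (h0 : s0 ∈ Q0) {D : Finset (Fin 31)}
    (hD : Fam 31 D) (hs : s0.map (w j) ⊆ D) : ∃ D0 ∈ Q0, D = D0.map (w j) := by
  obtain ⟨e, he, hes⟩ := Q0_E0 s0 h0
  have h1 : e.map (w j) ⊆ D := (Finset.map_subset_map.2 hes).trans hs
  rcases hD with hD | ⟨j', _, s1, h1', rfl⟩
  · exact absurd (good_es.down _ _ _ h1 hD) (cone_no_E j he)
  · have := E_Q he h1' h1
    subst this
    exact ⟨s1, h1', rfl⟩

/-- The family has no interval partition with bottoms of size at most two. -/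
theorem no_partition (c d : Finset (Fin 31) → Finset (Fin 31))
    (h1 : ∀ s, Fam 31 s → c s ⊆ s ∧ s ⊆ d s ∧ Fam 31 (d s) ∧ (c s).card ≤ 2)
    (h2 : ∀ s, Fam 31 s → ∀ t, Fam 31 t → c s ⊆ t → t ⊆ d s → c t = c s ∧ d t = d s) :
    False := by
  classical
  have hdown : Down (Fam 31) := (Fam_down_ok 31 le_rfl).1
  -- in each copy there is an interval of positive value
  have hbad : ∀ j : Fin 31, ∃ s0 ∈ Q0,
      1 ≤ gv (c (s0.map (w j))).card ((d (s0.map (w j)) \ c (s0.map (w j))).card) := by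
    intro j
    by_contra hc
    push Not at hc
    have hF : ∀ s0 ∈ Q0, Fam 31 (s0.map (w j)) := fun s0 h0 => Or.inr ⟨j, j.2, s0, h0, rfl⟩
    have hD : ∀ s0 ∈ Q0, ∃ D0 ∈ Q0, d (s0.map (w j)) = D0.map (w j) := by
      intro s0 h0
      obtain ⟨_, a2, a3, _⟩ := h1 _ (hF s0 h0)
      exact above h0 a3 a2
    have hC : ∀ s0 ∈ Q0, ∃ C0 ⊆ s0, c (s0.map (w j)) = C0.map (w j) := by
      intro s0 h0
      obtain ⟨a1, _, _, _⟩ := h1 _ (hF s0 h0)
      rw [Finset.subset_map_iff] at a1
      exact a1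
    choose! D0 hD0 hD1 using hD
    choose! C0 hC0 hC1 using hC
    apply local_no C0 D0
    · intro s hs
      obtain ⟨a1, a2, a3, a4⟩ := h1 _ (hF s hs)
      have hCD : c (s.map (w j)) ⊆ d (s.map (w j)) := a1.trans a2
      have hcard := sdiff_card hCD
      have hd4 := Fam_card a3
      have hd2 : 2 ≤ (d (s.map (w j))).card := by
        rw [hD1 s hs, Finset.card_map]
        exact (Q0_card _ (hD0 s hs)).1
      have hneg := hc s hs
      have hpos := gv_pos (c (s.map (w j))).card a4
        ((d (s.map (w j)) \ c (s.map (w j))).card) (by omega) (by omega) (by omega)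
      have h3 : ¬ ((c (s.map (w j))).card ≠ 2 ∨
          (d (s.map (w j)) \ c (s.map (w j))).card = 0) := fun h => by
        have := hpos h
        omega
      push Not at h3
      refine ⟨hC0 s hs, ?_, hD0 s hs, ?_, ?_⟩
      · rw [hD1 s hs, Finset.map_subset_map] at a2
        exact a2
      · rw [hC1 s hs, Finset.card_map] at h3
        exact h3.1
      · intro he
        apply h3.2
        rw [hC1 s hs, hD1 s hs, he, sdiff_self, Finset.bot_eq_empty, Finset.card_empty]
    · intro s hs t ht hst hts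
      obtain ⟨e1, e2⟩ := h2 _ (hF s hs) _ (hF t ht)
        (by rw [hC1 s hs]; exact Finset.map_subset_map.2 hst)
        (by rw [hD1 s hs]; exact Finset.map_subset_map.2 hts)
      rw [hC1 s hs, hC1 t ht, Finset.map_inj] at e1
      rw [hD1 s hs, hD1 t ht, Finset.map_inj] at e2
      exact ⟨e1, e2⟩
    · intro s hs t ht hst
      obtain ⟨a1, a2, a3, a4⟩ := h1 _ (hF s hs)
      obtain ⟨b1, b2, b3, b4⟩ := h1 _ (hF t ht)
      have hFC : Fam 31 (c (s.map (w j))) := hdown _ _ a1 (hF s hs)
      have hcc : c (s.map (w j)) = c (t.map (w j)) := by rw [hC1 s hs, hC1 t ht, hst]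
      obtain ⟨_, e2⟩ := h2 _ (hF s hs) _ hFC subset_rfl (a1.trans a2)
      obtain ⟨_, e4⟩ := h2 _ (hF t ht) _ hFC (by rw [hcc]) (by rw [hcc]; exact b1.trans b2)
      have : d (s.map (w j)) = d (t.map (w j)) := by rw [← e2, ← e4]
      rw [hD1 s hs, hD1 t ht, Finset.map_inj] at this
      exact this
  choose s0 hs0 hs1 using hbad
  -- the sum over the faces
  let cp : Finset (Fin 31) → Finset (Fin 31) × Finset (Fin 31) := fun s => (c s, d s)
  let g : Finset (Fin 31) × Finset (Fin 31) → ℤ := fun q => gv q.1.card (q.2 \ q.1).card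
  have hsum : ∑ s ∈ Gam 31, wt s.card = ∑ q ∈ (Gam 31).image cp, g q := by
    rw [← Finset.sum_fiberwise_of_maps_to (s := Gam 31) (t := (Gam 31).image cp) (g := cp)
      (fun s hs => Finset.mem_image_of_mem _ hs)]
    refine Finset.sum_congr rfl fun q hq => ?_
    rw [Finset.mem_image] at hq
    obtain ⟨t, ht, rfl⟩ := hq
    rw [mem_Gam] at ht
    obtain ⟨a1, a2, a3, a4⟩ := h1 t ht
    have : (Gam 31).filter (fun s => cp s = cp t) = Finset.Icc (c t) (d t) := by
      ext s
      rw [Finset.mem_filter, mem_Gam, Finset.mem_Icc]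
      constructor
      · rintro ⟨hs, he⟩
        obtain ⟨b1, b2, _, _⟩ := h1 s hs
        have e1 : c s = c t := congrArg Prod.fst he
        have e2 : d s = d t := congrArg Prod.snd he
        rw [← e1, ← e2]
        exact ⟨b1, b2⟩
      · rintro ⟨b1, b2⟩
        have hs : Fam 31 s := hdown _ _ b2 a3
        obtain ⟨e1, e2⟩ := h2 t ht s hs b1 b2
        exact ⟨hs, Prod.ext e1 e2⟩
    rw [this, sum_Icc wt _ _ (a1.trans a2)]
    rfl
  have hnn : ∀ q ∈ (Gam 31).image cp, 0 ≤ g q := by
    intro q hq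
    rw [Finset.mem_image] at hq
    obtain ⟨t, ht, rfl⟩ := hq
    rw [mem_Gam] at ht
    obtain ⟨a1, a2, a3, a4⟩ := h1 t ht
    have h3 := sdiff_card (a1.trans a2)
    have h4 := Fam_card a3
    change 0 ≤ gv (c t).card (d t \ c t).card
    exact gv_nonneg _ a4 _ (by omega) (by omega)
  let q : Fin 31 → Finset (Fin 31) × Finset (Fin 31) := fun j => cp ((s0 j).map (w j))
  have hqmem : ∀ j, q j ∈ (Gam 31).image cp := fun j =>
    Finset.mem_image_of_mem _ (mem_Gam.2 (Or.inr ⟨j, j.2, s0 j, hs0 j, rfl⟩))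
  have hqinj : Function.Injective q := by
    intro j j' he
    have he2 : d ((s0 j).map (w j)) = d ((s0 j').map (w j')) := congrArg Prod.snd he
    obtain ⟨_, a2, a3, _⟩ := h1 _ (Or.inr ⟨j, j.2, s0 j, hs0 j, rfl⟩ : Fam 31 ((s0 j).map (w j)))
    obtain ⟨_, b2, b3, _⟩ := h1 _
      (Or.inr ⟨j', j'.2, s0 j', hs0 j', rfl⟩ : Fam 31 ((s0 j').map (w j')))
    obtain ⟨D', hD', e'⟩ := above (hs0 j') b3 b2
    obtain ⟨e, he, hes⟩ := Q0_E0 _ (hs0 j)
    refine E_Q he hD' ?_
    rw [← e', ← he2]
    exact (Finset.map_subset_map.2 hes).trans a2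
  have hlow : (31 : ℤ) ≤ ∑ q ∈ (Gam 31).image cp, g q := by
    have hsub : (Finset.univ.image q) ⊆ (Gam 31).image cp := by
      intro x hx
      rw [Finset.mem_image] at hx
      obtain ⟨j, _, rfl⟩ := hx
      exact hqmem j
    calc (31 : ℤ) = ∑ _j : Fin 31, (1 : ℤ) := by simp
      _ ≤ ∑ j : Fin 31, g (q j) := Finset.sum_le_sum fun j _ => hs1 j
      _ = ∑ x ∈ Finset.univ.image q, g x := (Finset.sum_image fun j _ j' _ h => hqinj h).symm
      _ ≤ ∑ x ∈ (Gam 31).image cp, g x :=
        Finset.sum_le_sum_of_subset_of_nonneg hsub fun x hx _ => hnn x hx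
  have hup := sum_le 31 le_rfl
  rw [hsum] at hup
  omega

end Pool.Agent.H135R3.SD2
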