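import Mathlib
import Pool.Agent.H135R3.SDCount

/-! The counterexample to `sdepth I ≥ depth I` for monomial ideals. -/

set_option autoImplicit false

namespace Pool.Agent.H135R3.SD2

open RingTheory.Sequence MvPolynomial

/-- the ideal -/
noncomputable def J : Ideal (MvPolynomial (Fin 31) ℚ) := I ℚ (Fam 31)

/-- the scalars -/
def aq : Fin 31 → ℚ := fun v => ((v : ℕ) : ℚ)

theorem aq_inj : Function.Injective aq := by
  intro u v h
  have h2 : ((u : ℕ) : ℚ) = ((v : ℕ) : ℚ) := h
  exact Fin.ext (by exact_mod_cast h2)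

/-- the sequence -/
noncomputable def seq : List (MvPolynomial (Fin 31) ℚ) := (List.range 29).map (theta aq)

theorem seq_length : seq.length = 29 := by simp [seq]

theorem seq_const : ∀ r ∈ seq, constantCoeff r = 0 := by
  intro r hr
  rw [seq, List.mem_map] at hr
  obtain ⟨k, _, rfl⟩ := hr
  simp [theta]

theorem down31 : Down (Fam 31) := (Fam_down_ok 31 le_rfl).1

theorem facet_mem : Fam 31 (({0, 1, 2, 3} : Finset (Fin 6)).map (w 0)) :=
  Or.inr ⟨0, by decide, {0, 1, 2, 3}, by decide +kernel, rfl⟩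

theorem J_ne_bot : J ≠ ⊥ := by
  intro h
  have h1 : monomial (ev (({0, 1, 2, 3} : Finset (Fin 6)).map (w 0))) (1 : ℚ) ∈ J := by
    rw [J, monomial_mem_I down31, Z_ev]
    exact facet_mem
  rw [h, Ideal.mem_bot, monomial_eq_zero] at h1
  exact one_ne_zero h1

theorem deg_ge {b : Fin 31 →₀ ℕ} (h : Fam 31 (Z b)) : 27 ≤ ∑ v, b v := by
  have h1 : (Z b)ᶜ.card ≤ ∑ v ∈ (Z b)ᶜ, b v := by
    rw [Finset.card_eq_sum_ones]
    apply Finset.sum_le_sum
    intro v hv
    rw [Finset.mem_compl, mem_Z] at hv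
    omega
  have h2 : ∑ v ∈ (Z b)ᶜ, b v ≤ ∑ v, b v :=
    Finset.sum_le_sum_of_subset (Finset.subset_univ _)
  have h3 := Fam_card h
  rw [Finset.card_compl, Fintype.card_fin] at h1
  omega

theorem reg : IsRegular (↥J) seq := by
  refine ⟨Fam_wr aq aq_inj 31 le_rfl, ?_⟩
  intro htop
  have hm : monomial (ev (({0, 1, 2, 3} : Finset (Fin 6)).map (w 0))) (1 : ℚ) ∈ J := by
    rw [J, monomial_mem_I down31, Z_ev]
    exact facet_mem
  have hle : Ideal.ofList seq ≤ RingHom.ker (constantCoeff (R := ℚ) (σ := Fin 31)) := by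
    rw [Ideal.ofList, Ideal.span_le]
    intro r hr
    exact seq_const r hr
  have key : ∀ x : ↥J, x ∈ (Ideal.ofList seq • ⊤ : Submodule (MvPolynomial (Fin 31) ℚ) ↥J) →
      ∀ a ∈ (x : MvPolynomial (Fin 31) ℚ).support, 28 ≤ ∑ v, a v := by
    intro x hx
    refine Submodule.smul_induction_on hx ?_ ?_
    · intro r hr y _ a ha
      change a ∈ (r * (y : MvPolynomial (Fin 31) ℚ)).support at ha
      classical
      have h1 := support_mul _ _ ha
      rw [Finset.mem_add] at h1
      obtain ⟨a1, ha1, a2, ha2, rfl⟩ := h1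
      have h2 : 27 ≤ ∑ v, a2 v := deg_ge ((mem_I down31 _).1 y.2 a2 ha2)
      have h3 : 1 ≤ ∑ v, a1 v := by
        by_contra hc
        have h4 : a1 = 0 := by
          ext v
          have : a1 v ≤ ∑ v, a1 v :=
            Finset.single_le_sum (f := fun v => a1 v) (fun _ _ => Nat.zero_le _)
              (Finset.mem_univ v)
          simp only [Finsupp.coe_zero, Pi.zero_apply]
          omega
        rw [h4, mem_support_iff] at ha1
        exact ha1 (hle hr)
      simp only [Finsupp.add_apply, Finset.sum_add_distrib]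
      omega
    · intro x y hx hy a ha
      classical
      change a ∈ ((x : MvPolynomial (Fin 31) ℚ) + (y : MvPolynomial (Fin 31) ℚ)).support at ha
      have h1 := support_add ha
      rw [Finset.mem_union] at h1
      rcases h1 with h1 | h1
      · exact hx a h1
      · exact hy a h1
  have h5 := key ⟨_, hm⟩ (htop ▸ Submodule.mem_top) (ev (({0, 1, 2, 3} : Finset (Fin 6)).map
    (w 0))) (by
      change _ ∈ (monomial _ (1 : ℚ)).support
      classical
      rw [support_monomial, if_neg one_ne_zero]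
      exact Finset.mem_singleton_self _)
  have h6 : ∑ v, ev (({0, 1, 2, 3} : Finset (Fin 6)).map (w 0)) v = 27 := by
    simp only [ev_apply]
    rw [Finset.sum_ite, Finset.sum_const_zero, zero_add, Finset.sum_const, smul_eq_mul, mul_one]
    rw [Finset.filter_not, Finset.card_sdiff_of_subset (Finset.filter_subset _ _)]
    rw [Finset.filter_mem_eq_inter, Finset.univ_inter, Finset.card_map]
    rfl
  omega

theorem no_stanley : ¬ ∃ D : Finset ((Fin 31 →₀ ℕ) × Finset (Fin 31)),
    (∀ p ∈ D, seq.length ≤ p.2.card) ∧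
    (∀ p ∈ D, ∀ b : Fin 31 →₀ ℕ, b.support ⊆ p.2 →
      MvPolynomial.monomial (p.1 + b) (1 : ℚ) ∈ J) ∧
    ∀ a : Fin 31 →₀ ℕ, MvPolynomial.monomial a (1 : ℚ) ∈ J →
      ∃! p, p ∈ D ∧ ∃ b : Fin 31 →₀ ℕ, b.support ⊆ p.2 ∧ a = p.1 + b := by
  rintro ⟨D, q1, q2, q3⟩
  have key : ∀ s : Finset (Fin 31), Fam 31 s → ∃ p, p ∈ D ∧
      (∃ b : Fin 31 →₀ ℕ, b.support ⊆ p.2 ∧ ev s = p.1 + b) ∧
      ∀ p', (p' ∈ D ∧ ∃ b : Fin 31 →₀ ℕ, b.support ⊆ p'.2 ∧ ev s = p'.1 + b) → p' = p := by
    intro s hs
    have h1 : monomial (ev s) (1 : ℚ) ∈ J := by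
      rw [J, monomial_mem_I down31, Z_ev]
      exact hs
    obtain ⟨p, hp, hu⟩ := q3 _ h1
    exact ⟨p, hp.1, hp.2, fun p' hp' => hu p' hp'⟩
  choose! p hp1 hp2 hp3 using key
  refine no_partition (fun s => Z (p s).1 \ (p s).2) (fun s => Z (p s).1) ?_ ?_
  · intro s hs
    obtain ⟨b, hb, hsb⟩ := hp2 s hs
    refine ⟨?_, ?_, ?_, ?_⟩
    · intro v hv
      rw [Finset.mem_sdiff, mem_Z] at hv
      have hbv : b v = 0 := by
        by_contra hc
        exact hv.2 (hb (Finsupp.mem_support_iff.2 hc))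
      have h1 : ev s v = 0 := by rw [hsb, Finsupp.add_apply, hv.1, hbv]
      rw [← Z_ev s, mem_Z]
      exact h1
    · intro v hv
      rw [mem_Z]
      have h1 : ev s v = 0 := by rw [ev_apply, if_pos hv]
      rw [hsb, Finsupp.add_apply] at h1
      omega
    · have h1 := q2 _ (hp1 s hs) 0 (by simp)
      rw [add_zero, J, monomial_mem_I down31] at h1
      exact h1
    · have h1 := q1 _ (hp1 s hs)
      rw [seq_length] at h1
      have h2 : (Z (p s).1 \ (p s).2).card ≤ ((p s).2)ᶜ.card := by
        apply Finset.card_le_card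
        intro v hv
        rw [Finset.mem_sdiff] at hv
        exact Finset.mem_compl.2 hv.2
      rw [Finset.card_compl, Fintype.card_fin] at h2
      omega
  · intro s hs t ht hst hts
    have heq : p s = p t := by
      apply hp3 t ht
      refine ⟨hp1 s hs, ?_⟩
      obtain ⟨b, hb, hsb⟩ := hp2 s hs
      have hle : (p s).1 ≤ ev t := by
        intro v
        by_cases hv : v ∈ t
        · have := hts hv
          rw [mem_Z] at this
          rw [this]
          exact Nat.zero_le _
        · have h1 : ev s v ≤ 1 := by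
            rw [ev_apply]
            split_ifs <;> omega
          rw [hsb, Finsupp.add_apply] at h1
          rw [ev_apply, if_neg hv]
          omega
      refine ⟨ev t - (p s).1, ?_, (add_tsub_cancel_of_le hle).symm⟩
      intro v hv
      rw [Finsupp.mem_support_iff, Finsupp.tsub_apply] at hv
      have h2 : v ∉ t := by
        intro hvt
        apply hv
        rw [ev_apply, if_pos hvt]
        omega
      have h3 : v ∈ Z (p s).1 := by
        rw [mem_Z]
        rw [ev_apply, if_neg h2] at hv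
        omega
      by_contra hc
      exact h2 (hst (Finset.mem_sdiff.2 ⟨h3, hc⟩))
    simp only [heq, and_self]

end Pool.Agent.H135R3.SD2
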