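import Mathlib

/-! A squarefree monomial ideal in 10 variables with `sdepth I = sdepth S/I = 7`.

The Stanley complex is a subset family on `Fin 10`, encoded by bit masks. -/

set_option autoImplicit false

namespace Pool.Agent.H135R3.SD

/-- The intervals `[A, B]` (bit masks of subsets of `Fin 10`) partitioning the complex. -/
def ivs : List (ℕ × ℕ) := [(896, 1016), (964, 1012), (748, 1004), (972, 988), (900, 956), (832, 892), (596, 764), (0, 508), (338, 1010), (970, 1002), (474, 986), (946, 954), (842, 890), (576, 762), (490, 506), (322, 998), (598, 982), (846, 974), (898, 942), (914, 926), (512, 830), (640, 702), (258, 446), (630, 638), (342, 382), (2, 254), (177, 1009), (329, 1001), (857, 985), (905, 953), (881, 889), (649, 761), (345, 505), (145, 981), (333, 973), (789, 829), (685, 701), (153, 445), (605, 637), (365, 381), (245, 253), (1, 995), (211, 979), (651, 971), (273, 827), (659, 699), (147, 443), (585, 635), (346, 379), (89, 251), (837, 967), (517, 935), (869, 871), (580, 743), (5, 487), (915, 919), (849, 855), (151,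 727), (470, 471), (181, 695), (437, 439), (81, 631), (337, 375), (243, 247), (653, 911), (843, 847), (716, 719), (458, 463), (521, 815), (683, 687), (265, 431), (588, 623), (330, 367), (9, 239), (791, 799), (669, 671), (407, 415), (606, 607), (93, 351), (221, 223), (17, 575), (277, 319), (159, 191), (125, 127), (997, 997), (823, 823)]

/-- The 34 generators of degree 7. -/
def gm : List ℕ := [475, 477, 478, 491, 493, 494, 499, 501, 502, 731, 733, 734, 747, 749, 750, 755, 757, 758, 859, 861, 862, 875, 877, 878, 883, 885, 886, 923, 925, 939, 941, 947, 949, 950]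

/-- The 33 sets of size 8 lying above a generator of degree 7. -/
def dm : List ℕ := [479, 495, 503, 507, 509, 510, 735, 751, 759, 763, 765, 766, 863, 879, 887, 891, 893, 894, 927, 943, 951, 955, 957, 958, 987, 989, 990, 1003, 1005, 1006, 1011, 1013, 1014]

/-- The minimal generators of the ideal. -/
def mins : List ℕ := gm ++ [255, 383, 447, 639, 703, 831, 975, 983, 999, 1017, 1018, 1020]

/-- membership of a mask in the up-set -/
def up (y : ℕ) : Bool := mins.any (fun m => m &&& y == m)

/-- membership of a mask in an interval -/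
def inside (y : ℕ) (p : ℕ × ℕ) : Bool := (p.1 &&& y == p.1) && (y &&& p.2 == y)

theorem chk1 : (List.range 1024).all (fun y => up y == !(ivs.any (inside y))) = true := by
  decide +kernel

theorem chk2 : ivs.all (fun p => ivs.all (fun q => (p == q) ||
    !((p.1 ||| q.1) &&& (p.2 &&& q.2) == (p.1 ||| q.1)))) = true := by
  decide +kernel

theorem chk2a : ivs.all (fun p => (p.1 &&& p.2 == p.1) && decide (p.1 < 1024) &&
    decide (p.2 < 1024)) = true := by
  decide +kernel

theorem chk2b : ivs.all (fun p => decide (7 ≤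
    (Finset.univ.filter (fun j : Fin 10 => p.2.testBit j = true)).card)) = true := by
  decide +kernel

theorem chk3 : gm.all (fun g => mins.all (fun m => (m == g) || !(m &&& g == m))) = true := by
  decide +kernel

theorem chk4 : gm.all (fun g => decide (g < 1024) && decide (
    (Finset.univ.filter (fun j : Fin 10 => g.testBit j = true)).card = 7)) = true := by
  decide +kernel

theorem chk5 : gm.all (fun g => (List.range 10).all (fun z => g.testBit z ||
    dm.contains (g ||| 2 ^ z))) = true := by
  decide +kernel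

theorem chk6 : gm.toFinset.card = 34 := by decide +kernel

theorem chk7 : dm.toFinset.card = 33 := by decide +kernel

theorem chk8 : up 0 = false := by decide +kernel

theorem chk9 : mins.all (fun m => decide (m < 1024)) = true := by decide +kernel

/-- the support mask of an exponent vector -/
def supp (b : Fin 10 → ℕ) : ℕ := Nat.ofBits (fun j => decide (b j ≠ 0))

theorem supp_lt (b : Fin 10 → ℕ) : supp b < 1024 := Nat.ofBits_lt_two_pow _

theorem supp_test (b : Fin 10 → ℕ) (j : Fin 10) :
    (supp b).testBit j = decide (b j ≠ 0) := by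
  have := Nat.testBit_ofBits_lt (fun j : Fin 10 => decide (b j ≠ 0)) j j.2
  simpa [supp] using this

theorem eq_of_bits {a y : ℕ} (ha : a < 1024) (hy : y < 1024)
    (h : ∀ j : Fin 10, a.testBit j = y.testBit j) : a = y := by
  apply Nat.eq_of_testBit_eq
  intro i
  by_cases hi : i < 10
  · exact h ⟨i, hi⟩
  · have h10 : (1024 : ℕ) ≤ 2 ^ i := by
      calc (1024 : ℕ) = 2 ^ 10 := by norm_num
        _ ≤ 2 ^ i := Nat.pow_le_pow_right (by norm_num) (by omega)
    rw [Nat.testBit_lt_two_pow (lt_of_lt_of_le ha h10),
      Nat.testBit_lt_two_pow (lt_of_lt_of_le hy h10)]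

theorem land_iff {a y : ℕ} (ha : a < 1024) :
    a &&& y = a ↔ ∀ j : Fin 10, a.testBit j = true → y.testBit j = true := by
  constructor
  · intro h j hj
    rw [← h, Nat.testBit_and] at hj
    simp only [Bool.and_eq_true] at hj
    exact hj.2
  · intro h
    apply eq_of_bits (lt_of_le_of_lt Nat.and_le_left ha) ha
    intro j
    rw [Nat.testBit_and]
    cases hj : a.testBit j with
    | false => simp
    | true => simp [h j hj]

theorem up_iff (y : ℕ) : up y = true ↔
    ∃ m ∈ mins, ∀ j : Fin 10, m.testBit j = true → y.testBit j = true := by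
  have h9 := chk9
  rw [List.all_eq_true] at h9
  unfold up
  rw [List.any_eq_true]
  constructor
  · rintro ⟨m, hm, h⟩
    exact ⟨m, hm, (land_iff (by simpa using h9 m hm)).1 (by simpa using h)⟩
  · rintro ⟨m, hm, h⟩
    exact ⟨m, hm, by simpa using (land_iff (by simpa using h9 m hm)).2 h⟩

theorem inside_iff {y : ℕ} (hy : y < 1024) {p : ℕ × ℕ} (hp : p.1 < 1024) :
    inside y p = true ↔ (∀ j : Fin 10, p.1.testBit j = true → y.testBit j = true) ∧
      (∀ j : Fin 10, y.testBit j = true → p.2.testBit j = true) := by
  unfold inside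
  rw [Bool.and_eq_true, beq_iff_eq, beq_iff_eq, land_iff hp, land_iff hy]

/-- the Stanley space of an interval -/
def toP (p : ℕ × ℕ) : (Fin 10 → ℕ) × Finset (Fin 10) :=
  (fun j => if p.1.testBit j then 1 else 0, Finset.univ.filter (fun j => p.2.testBit j = true))

/-- the membership predicate of a Stanley space -/
def Mem (b : Fin 10 → ℕ) (p : (Fin 10 → ℕ) × Finset (Fin 10)) : Prop :=
  ∀ j : Fin 10, (j ∈ p.2 → p.1 j ≤ b j) ∧ (j ∉ p.2 → b j = p.1 j)

theorem iv_facts {p : ℕ × ℕ} (hp : p ∈ ivs) :
    (∀ j : Fin 10, p.1.testBit j = true → p.2.testBit j = true) ∧ p.1 < 1024 ∧ p.2 < 1024 := by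
  have h := chk2a
  rw [List.all_eq_true] at h
  have h1 := h p hp
  simp only [Bool.and_eq_true, beq_iff_eq, decide_eq_true_eq] at h1
  exact ⟨(land_iff h1.1.2).1 h1.1.1, h1.1.2, h1.2⟩

theorem mem_toP {p : ℕ × ℕ} (hp : p ∈ ivs) (b : Fin 10 → ℕ) :
    Mem b (toP p) ↔ inside (supp b) p = true := by
  obtain ⟨h1, h2, h3⟩ := iv_facts hp
  rw [inside_iff (supp_lt b) h2]
  constructor
  · intro h
    constructor
    · intro j hj
      rw [supp_test]
      have := (h j).1 (by simp [toP, h1 j hj])
      simp only [toP, hj, if_true] at this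
      simp; omega
    · intro j hj
      rw [supp_test] at hj
      by_contra hc
      have h4 := (h j).2 (by simpa [toP] using hc)
      have h5 : p.1.testBit j ≠ true := fun h6 => hc (h1 j h6)
      simp only [toP] at h4
      rw [if_neg h5] at h4
      simp [h4] at hj
  · rintro ⟨ha, hb⟩ j
    constructor
    · intro hj
      simp only [toP]
      split_ifs with h4
      · have h5 := ha j h4
        rw [supp_test] at h5
        simp at h5
        omega
      · omega
    · intro hj
      have hj' : p.2.testBit j ≠ true := by simpa [toP] using hj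
      have h5 : p.1.testBit j ≠ true := fun h6 => hj' (h1 j h6)
      simp only [toP]
      rw [if_neg h5]
      by_contra h6
      apply hj'
      apply hb j
      rw [supp_test]
      simpa using h6

/-- The monomials of the ideal. -/
def U : Set (Fin 10 → ℕ) := {b | up (supp b) = true}

theorem mem_U (b : Fin 10 → ℕ) : b ∈ U ↔
    ∃ m ∈ mins, ∀ j : Fin 10, m.testBit j = true → b j ≠ 0 := by
  change up (supp b) = true ↔ _
  rw [up_iff]
  simp only [supp_test, decide_eq_true_eq]

theorem U_upper : IsUpperSet U := by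
  intro b c hbc hb
  rw [mem_U] at hb ⊢
  obtain ⟨m, hm, h⟩ := hb
  refine ⟨m, hm, fun j hj => ?_⟩
  have h3 := h j hj
  have h2 : b j ≤ c j := hbc j
  omega

theorem U_zero : (0 : Fin 10 → ℕ) ∉ U := by
  intro h
  have h1 : supp (0 : Fin 10 → ℕ) = 0 := by
    apply eq_of_bits (supp_lt _) (by norm_num)
    intro j
    rw [supp_test]
    simp
  have h2 : up (supp (0 : Fin 10 → ℕ)) = true := h
  rw [h1, chk8] at h2
  exact absurd h2 (by simp)

theorem U_nonempty : U.Nonempty := by
  refine ⟨fun _ => 1, ?_⟩
  rw [mem_U]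
  refine ⟨mins.head (by decide), List.head_mem _, fun j _ => by simp⟩

/-- `S/I` has a Stanley decomposition with all spaces of dimension at least 7. -/
theorem decomp : ∃ s : Finset ((Fin 10 → ℕ) × Finset (Fin 10)),
    (∀ p ∈ s, 7 ≤ p.2.card) ∧
    (∀ b : Fin 10 → ℕ, b ∉ U ↔ ∃ p ∈ s, Mem b p) ∧
    (∀ p ∈ s, ∀ q ∈ s, ∀ b : Fin 10 → ℕ, Mem b p → Mem b q → p = q) := by
  refine ⟨(ivs.map toP).toFinset, ?_, ?_, ?_⟩
  · intro p hp
    rw [List.mem_toFinset, List.mem_map] at hp
    obtain ⟨q, hq, rfl⟩ := hp
    have h := chk2b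
    rw [List.all_eq_true] at h
    exact of_decide_eq_true (h q hq)
  · intro b
    have h := chk1
    rw [List.all_eq_true] at h
    have h1 := h (supp b) (List.mem_range.2 (supp_lt b))
    rw [beq_iff_eq] at h1
    change ¬ (up (supp b) = true) ↔ _
    rw [h1]
    constructor
    · intro h2
      have h3 : ivs.any (inside (supp b)) = true := by
        simpa using h2
      rw [List.any_eq_true] at h3
      obtain ⟨p, hp, h4⟩ := h3
      exact ⟨toP p, by rw [List.mem_toFinset]; exact List.mem_map_of_mem hp,
        (mem_toP hp b).2 h4⟩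
    · rintro ⟨p, hp, h4⟩
      rw [List.mem_toFinset, List.mem_map] at hp
      obtain ⟨q, hq, rfl⟩ := hp
      have h5 := (mem_toP hq b).1 h4
      have h6 : ivs.any (inside (supp b)) = true := List.any_eq_true.2 ⟨q, hq, h5⟩
      simp [h6]
  · intro p hp q hq b hbp hbq
    rw [List.mem_toFinset, List.mem_map] at hp hq
    obtain ⟨p, hp, rfl⟩ := hp
    obtain ⟨q, hq, rfl⟩ := hq
    rw [mem_toP hp] at hbp
    rw [mem_toP hq] at hbq
    obtain ⟨_, hp1, hp2⟩ := iv_facts hp
    obtain ⟨_, hq1, hq2⟩ := iv_facts hq
    rw [inside_iff (supp_lt b) hp1] at hbp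
    rw [inside_iff (supp_lt b) hq1] at hbq
    have h := chk2
    rw [List.all_eq_true] at h
    have h2 := h p hp
    rw [List.all_eq_true] at h2
    have h3 := h2 q hq
    rw [Bool.or_eq_true] at h3
    rcases h3 with h3 | h3
    · rw [beq_iff_eq] at h3
      rw [h3]
    · exfalso
      rw [Bool.not_eq_true', beq_eq_false_iff_ne] at h3
      apply h3
      have hor : p.1 ||| q.1 < 1024 := Nat.or_lt_two_pow (n := 10) hp1 hq1
      rw [land_iff hor]
      intro j hj
      rw [Nat.testBit_or, Bool.or_eq_true] at hj
      rw [Nat.testBit_and, Bool.and_eq_true]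
      have hs : (supp b).testBit j = true := by
        rcases hj with hj | hj
        · exact hbp.1 j hj
        · exact hbq.1 j hj
      exact ⟨hbp.2 j hs, hbq.2 j hs⟩

/-- the squarefree monomial of a mask -/
def ind (g : ℕ) : Fin 10 → ℕ := fun j => if g.testBit j then 1 else 0

theorem supp_ind {g : ℕ} (hg : g < 1024) : supp (ind g) = g := by
  apply eq_of_bits (supp_lt _) hg
  intro j
  rw [supp_test]
  unfold ind
  cases h : g.testBit j <;> simp

/-- `I` has no Stanley decomposition with all spaces of dimension at least 8. -/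
theorem no_decomp : ¬ ∃ s : Finset ((Fin 10 → ℕ) × Finset (Fin 10)),
    (∀ p ∈ s, 8 ≤ p.2.card) ∧
    (∀ b : Fin 10 → ℕ, b ∈ U ↔ ∃ p ∈ s, Mem b p) ∧
    (∀ p ∈ s, ∀ q ∈ s, ∀ b : Fin 10 → ℕ, Mem b p → Mem b q → p = q) := by
  rintro ⟨s, hs1, hs2, hs3⟩
  have h4 := chk4
  rw [List.all_eq_true] at h4
  have key : ∀ g ∈ gm, ∃ z : Fin 10, g.testBit z = false ∧
      ∃ p ∈ s, p.1 = ind g ∧ Mem (ind (g ||| 2 ^ (z : ℕ))) p := by
    intro g hg
    have hg4 := h4 g hg
    rw [Bool.and_eq_true, decide_eq_true_eq, decide_eq_true_eq] at hg4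
    have hU : ind g ∈ U := by
      rw [mem_U]
      refine ⟨g, List.mem_append_left _ hg, fun j hj => ?_⟩
      simp [ind, hj]
    obtain ⟨p, hp, hb⟩ := (hs2 _).1 hU
    have hle : ∀ j, p.1 j ≤ ind g j := by
      intro j
      by_cases hj : j ∈ p.2
      · exact (hb j).1 hj
      · exact ((hb j).2 hj).ge
    have hpU : p.1 ∈ U := (hs2 _).2 ⟨p, hp, fun j => ⟨fun _ => le_rfl, fun _ => rfl⟩⟩
    rw [mem_U] at hpU
    obtain ⟨m, hm, hmp⟩ := hpU
    have hmg : m = g := by
      have h3 := chk3
      rw [List.all_eq_true] at h3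
      have h3' := h3 g hg
      rw [List.all_eq_true] at h3'
      have h3'' := h3' m hm
      rw [Bool.or_eq_true] at h3''
      rcases h3'' with h | h
      · simpa using h
      · exfalso
        rw [Bool.not_eq_true', beq_eq_false_iff_ne] at h
        apply h
        have h9 := chk9
        rw [List.all_eq_true] at h9
        have hm9 : m < 1024 := by simpa using h9 m hm
        rw [land_iff hm9]
        intro j hj
        have h5 := hmp j hj
        have h6 := hle j
        unfold ind at h6
        by_contra hc
        rw [if_neg hc] at h6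
        omega
    subst hmg
    have hp1 : p.1 = ind m := by
      funext j
      have h6 := hle j
      by_cases hj : m.testBit j = true
      · have h5 := hmp j hj
        unfold ind at h6 ⊢
        rw [if_pos hj] at h6 ⊢
        omega
      · unfold ind at h6 ⊢
        rw [if_neg hj] at h6 ⊢
        omega
    have hz : ∃ z ∈ p.2, z ∉ Finset.univ.filter (fun j : Fin 10 => m.testBit j = true) := by
      by_contra hc
      push Not at hc
      have h8 := hs1 p hp
      have := Finset.card_le_card (fun z hz => hc z hz :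
        p.2 ⊆ Finset.univ.filter (fun j : Fin 10 => m.testBit j = true))
      omega
    obtain ⟨z, hz1, hz2⟩ := hz
    have hz3 : m.testBit z = false := by simpa using hz2
    refine ⟨z, hz3, p, hp, hp1, fun j => ⟨fun hj => ?_, fun hj => ?_⟩⟩
    · rw [hp1]
      unfold ind
      rw [Nat.testBit_or]
      by_cases h : m.testBit j = true
      · simp [h]
      · rw [if_neg h]; omega
    · rw [hp1]
      have hjz : j ≠ z := fun h => hj (h ▸ hz1)
      unfold ind
      rw [Nat.testBit_or, Nat.testBit_two_pow]
      have : ¬ ((z : ℕ) = (j : ℕ)) := fun h => hjz (Fin.ext h.symm)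
      simp [this]
  choose! z hz p hp hp1 hp2 using key
  have hmap : ∀ g ∈ gm.toFinset, g ||| 2 ^ (z g : ℕ) ∈ dm.toFinset := by
    intro g hg
    rw [List.mem_toFinset] at hg
    have h5 := chk5
    rw [List.all_eq_true] at h5
    have h5' := h5 g hg
    rw [List.all_eq_true] at h5'
    have h5'' := h5' (z g : ℕ) (List.mem_range.2 (z g).2)
    rw [hz g hg, Bool.false_or] at h5''
    rw [List.mem_toFinset]
    simpa using h5''
  have hinj : Set.InjOn (fun g => g ||| 2 ^ (z g : ℕ)) (gm.toFinset : Set ℕ) := by
    intro g hg g' hg' heq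
    have hg : g ∈ gm := by simpa using hg
    have hg' : g' ∈ gm := by simpa using hg'
    have heq : g ||| 2 ^ (z g : ℕ) = g' ||| 2 ^ (z g' : ℕ) := heq
    have h1 := hp2 g hg
    rw [heq] at h1
    have h2 := hs3 _ (hp g hg) _ (hp g' hg') _ h1 (hp2 g' hg')
    have h3 : ind g = ind g' := by rw [← hp1 g hg, ← hp1 g' hg', h2]
    have hl := h4 g hg
    have hl' := h4 g' hg'
    rw [Bool.and_eq_true, decide_eq_true_eq] at hl hl'
    rw [← supp_ind hl.1, ← supp_ind hl'.1, h3]
  have := Finset.card_le_card_of_injOn _ hmap hinj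
  rw [chk6, chk7] at this
  omega

end Pool.Agent.H135R3.SD
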